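import Mathlib

/-!
# Lacunary maximal operators along convex curves: definitions
-/

open MeasureTheory Set
open scoped ENNReal RealInnerProductSpace

namespace Pool.Agent.Helper61.Lacunary

/-- The Euclidean plane. -/
abbrev Plane := EuclideanSpace ℝ (Fin 2)

/-- Arclength measure on the boundary of `Ω`: one-dimensional Hausdorff measure restricted to the
boundary. -/
noncomputable def arclength (Ω : Set Plane) : Measure Plane :=
  (μH[1] : Measure Plane).restrict (frontier Ω)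

/-- The average `A_k f (x) = ∫_{∂Ω} f (x - 2^k y) σ(dy)`. -/
noncomputable def avg (Ω : Set Plane) (k : ℤ) (f : Plane → ℝ) (x : Plane) : ℝ :=
  ∫ y, f (x - (2 : ℝ) ^ k • y) ∂(arclength Ω)

/-- The lacunary maximal function `M f (x) = sup_k |A_k f (x)|`. -/
noncomputable def lacMax (Ω : Set Plane) (f : Plane → ℝ) (x : Plane) : ℝ≥0∞ :=
  ⨆ k : ℤ, ENNReal.ofReal |avg Ω k f x|

/-- `M` is bounded on `L^p`: `‖M f‖_p ≤ C ‖f‖_p` for all `f ∈ L^p`. -/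
def LpBounded (Ω : Set Plane) (p : ℝ) : Prop :=
  ∃ C : ℝ, ∀ f : Plane → ℝ, MemLp f (ENNReal.ofReal p) volume →
    (∫⁻ x, lacMax Ω f x ^ p) ^ (1 / p) ≤
      ENNReal.ofReal C * eLpNorm f (ENNReal.ofReal p) volume

/-- The supporting line `ℓ⁺(θ)` of `Ω` perpendicular to `θ` with `θ` as outer normal. -/
def linePlus (Ω : Set Plane) (θ : Plane) : Set Plane :=
  {z | ⟪z, θ⟫ = sSup ((fun y => ⟪y, θ⟫) '' Ω)}

/-- The supporting line `ℓ⁻(θ)` of `Ω` perpendicular to `θ` on the opposite side. -/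
def lineMinus (Ω : Set Plane) (θ : Plane) : Set Plane :=
  {z | ⟪z, θ⟫ = sInf ((fun y => ⟪y, θ⟫) '' Ω)}

/-- The cap `C⁺(θ, δ)`. -/
def capPlus (Ω : Set Plane) (θ : Plane) (δ : ℝ) : Set Plane :=
  {y | y ∈ frontier Ω ∧ Metric.infDist y (linePlus Ω θ) ≤ δ}

/-- The cap `C⁻(θ, δ)`. -/
def capMinus (Ω : Set Plane) (θ : Plane) (δ : ℝ) : Set Plane :=
  {y | y ∈ frontier Ω ∧ Metric.infDist y (lineMinus Ω θ) ≤ δ}

/-- `Λ(θ, δ)`, the larger of the lengths of the two caps. -/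
noncomputable def capLength (Ω : Set Plane) (θ : Plane) (δ : ℝ) : ℝ≥0∞ :=
  max (arclength Ω (capPlus Ω θ δ)) (arclength Ω (capMinus Ω θ δ))

/-- `δ₀` is admissible if the two caps of width less than `δ₀` are always disjoint. -/
def Admissible (Ω : Set Plane) (δ₀ : ℝ) : Prop :=
  0 < δ₀ ∧ ∀ θ : Plane, ‖θ‖ = 1 → ∀ δ : ℝ, 0 < δ → δ < δ₀ →
    Disjoint (capPlus Ω θ δ) (capMinus Ω θ δ)

/-- `I_p(θ) = ∫_0^{δ₀} Λ(θ, δ)^p δ⁻¹ dδ`. -/
noncomputable def capIntegral (Ω : Set Plane) (p δ₀ : ℝ) (θ : Plane) : ℝ≥0∞ :=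
  ∫⁻ δ in Ioo 0 δ₀, capLength Ω θ δ ^ p * ENNReal.ofReal δ⁻¹

/-- Condition `(G_p)`: there are admissible `δ₀`, and for each of them the integrals `I_p(θ)` are
bounded uniformly in the unit vector `θ`. -/
def ConditionG (Ω : Set Plane) (p : ℝ) : Prop :=
  (∃ δ₀, Admissible Ω δ₀) ∧ ∀ δ₀, Admissible Ω δ₀ →
    ∃ A : ℝ, ∀ θ : Plane, ‖θ‖ = 1 → capIntegral Ω p δ₀ θ ≤ ENNReal.ofReal A

end Pool.Agent.Helper61.Lacunary
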