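import Mathlib
import Pool.Agent.Helper61.Lacunary.Defs

/-!
# Measure of periodic sets and of sheared periodic strips in the plane
-/

open MeasureTheory Set
open scoped ENNReal

namespace Pool.Agent.Helper61.Lacunary

/-- Points within distance `η` of the coset `-c + Tℤ`. -/
theorem measurableSet_near (T c η : ℝ) :
    MeasurableSet {y : ℝ | ‖((y + c : ℝ) : AddCircle T)‖ ≤ η} := by
  apply IsClosed.measurableSet
  apply isClosed_le _ continuous_const
  exact continuous_norm.comp ((AddCircle.continuous_mk' T).comp (continuous_id.add continuous_const))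

/-- If `|x - n T| ≤ η` then the norm in the circle is at most `η`. -/
theorem norm_le_of_near {T x η : ℝ} (n : ℤ) (h : |x - n * T| ≤ η) :
    ‖(x : AddCircle T)‖ ≤ η := by
  have h1 : ((x - n * T : ℝ) : AddCircle T) = (x : AddCircle T) := by
    have : ((n * T : ℝ) : AddCircle T) = 0 := by
      rw [AddCircle.coe_eq_zero_iff]
      exact ⟨n, by simp⟩
    rw [AddCircle.coe_sub, this, sub_zero]
  rw [← h1]
  exact (QuotientAddGroup.norm_mk_le_norm (m := x - n * T)).trans h

/-- If the norm in the circle is at most `η` then `x` is within `η` of a multiple of `T`. -/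
theorem exists_near {T x η : ℝ} (h : ‖(x : AddCircle T)‖ ≤ η) : ∃ n : ℤ, |x - n * T| ≤ η :=
  ⟨round (T⁻¹ * x), by rwa [AddCircle.norm_eq] at h⟩

theorem volume_near_one {T : ℝ} (hT : 0 < T) (a c η : ℝ) :
    volume ({y : ℝ | ‖((y + c : ℝ) : AddCircle T)‖ ≤ η} ∩ Ioc a (a + T)) =
      ENNReal.ofReal (min T (2 * η)) := by
  have : Fact (0 < T) := ⟨hT⟩
  have hmp := AddCircle.measurePreserving_mk T a
  have hcl : MeasurableSet (Metric.closedBall (-(c : AddCircle T)) η) :=
    Metric.isClosed_closedBall.measurableSet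
  have h1 := hmp.measure_preimage hcl.nullMeasurableSet
  rw [AddCircle.volume_closedBall, Measure.restrict_apply] at h1
  · rw [← h1]
    congr 1
    ext y
    simp only [mem_inter_iff, mem_ofPred_eq, mem_preimage, mem_closedBall_iff_norm]
    rw [sub_neg_eq_add, ← AddCircle.coe_add]
  · exact (AddCircle.measurable_mk' (a := T)) hcl

theorem volume_near {T : ℝ} (hT : 0 < T) (a c η : ℝ) (K : ℕ) :
    volume ({y : ℝ | ‖((y + c : ℝ) : AddCircle T)‖ ≤ η} ∩ Ioc a (a + K * T)) =
      K * ENNReal.ofReal (min T (2 * η)) := by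
  induction K with
  | zero => simp
  | succ K ih =>
    have hsplit : {y : ℝ | ‖((y + c : ℝ) : AddCircle T)‖ ≤ η} ∩ Ioc a (a + (K + 1 : ℕ) * T) =
        ({y : ℝ | ‖((y + c : ℝ) : AddCircle T)‖ ≤ η} ∩ Ioc a (a + K * T)) ∪
        ({y : ℝ | ‖((y + c : ℝ) : AddCircle T)‖ ≤ η} ∩ Ioc (a + K * T) (a + K * T + T)) := by
      rw [← inter_union_distrib_left, Ioc_union_Ioc_eq_Ioc]
      · congr 2
        push_cast
        ring
      · have : 0 ≤ (K : ℝ) * T := by positivity
        linarith
      · linarith
    rw [hsplit, measure_union, ih, volume_near_one hT]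
    · push_cast
      ring
    · apply Disjoint.mono inter_subset_right inter_subset_right
      rw [Set.disjoint_left]
      rintro y ⟨_, h1⟩ ⟨h2, _⟩
      linarith
    · exact (measurableSet_near T c η).inter measurableSet_Ioc

/-- Plane volume of a set given by a condition on the two coordinates. -/
theorem volume_plane {E : Set (ℝ × ℝ)} (hE : MeasurableSet E) :
    volume {z : Plane | (z 0, z 1) ∈ E} = volume E := by
  have h1 := (EuclideanSpace.volume_preserving_symm_measurableEquiv_toLp (Fin 2))
  have h2 := (volume_preserving_finTwoArrow ℝ)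
  have h3 := (h2.comp h1).measure_preimage hE.nullMeasurableSet
  rw [← h3]
  rfl

/-- Fubini bound. -/
theorem volume_plane_le {A : Set ℝ} (hA : MeasurableSet A) {E : Set (ℝ × ℝ)} (hE : MeasurableSet E)
    (hEA : ∀ q ∈ E, q.1 ∈ A) (M : ℝ≥0∞) (hM : ∀ x, volume {y | (x, y) ∈ E} ≤ M) :
    volume {z : Plane | (z 0, z 1) ∈ E} ≤ volume A * M := by
  rw [volume_plane hE, Measure.volume_eq_prod, Measure.prod_apply hE]
  calc ∫⁻ x, volume (Prod.mk x ⁻¹' E) ≤ ∫⁻ x, A.indicator (fun _ => M) x := by
        apply lintegral_mono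
        intro x
        by_cases hx : x ∈ A
        · simp only [indicator_of_mem hx]
          exact hM x
        · have : Prod.mk x ⁻¹' E = ∅ := by
            ext y
            simp only [mem_preimage, mem_empty_iff_false, iff_false]
            intro h
            exact hx (hEA _ h)
          simp [this]
    _ = volume A * M := by
        rw [lintegral_indicator hA]
        simp [mul_comm]


/-- The volume of a periodic family of strips inside a box. -/
theorem volume_strips {A : Set ℝ} (hA : MeasurableSet A) (a η : ℝ) (R : ℕ) :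
    volume {z : Plane | z 0 ∈ A ∧ z 1 ∈ Ioc (-(R : ℝ)) R ∧
      ‖((z 1 + a * z 0 : ℝ) : AddCircle (1 : ℝ))‖ ≤ η} ≤
      volume A * ((2 * R : ℕ) * ENNReal.ofReal (2 * η)) := by
  have hmeas : MeasurableSet {q : ℝ × ℝ | q.1 ∈ A ∧ q.2 ∈ Ioc (-(R : ℝ)) R ∧
      ‖((q.2 + a * q.1 : ℝ) : AddCircle (1 : ℝ))‖ ≤ η} := by
    apply (measurable_fst hA).inter
    apply (measurable_snd measurableSet_Ioc).inter
    have hc : Continuous (fun q : ℝ × ℝ => ‖((q.2 + a * q.1 : ℝ) : AddCircle (1 : ℝ))‖) :=
      continuous_norm.comp ((AddCircle.continuous_mk' 1).comp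
        (continuous_snd.add (continuous_const.mul continuous_fst)))
    exact (isClosed_le hc (continuous_const (y := η))).measurableSet
  refine volume_plane_le hA hmeas (fun q hq => hq.1) _ ?_
  intro x
  have h1 := volume_near one_pos (-(R : ℝ)) (a * x) η (2 * R)
  refine (measure_mono ?_).trans (h1.le.trans ?_)
  · rintro y ⟨_, hy, hy'⟩
    refine ⟨hy', hy.1, hy.2.trans ?_⟩
    push_cast
    linarith
  · gcongr
    exact min_le_right _ _

/-- One greedy step: some shift of the periodic strip covers its average share. -/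
theorem greedy_step {V : Set Plane} (hV : MeasurableSet V) {v : Plane → ℝ} (hv : Measurable v)
    {h : ℝ} (h0 : 0 ≤ h) (h1 : 2 * h ≤ 1) :
    ∃ s : ℝ, volume (V ∩ {x | h < ‖((v x - s : ℝ) : AddCircle (1 : ℝ))‖}) ≤
      ENNReal.ofReal (1 - 2 * h) * volume V := by
  have : Fact ((0 : ℝ) < 1) := ⟨one_pos⟩
  set E : Set (AddCircle (1 : ℝ) × Plane) :=
    {q | q.2 ∈ V ∧ h < ‖((v q.2 : ℝ) : AddCircle (1 : ℝ)) - q.1‖} with hE
  have hvc : Measurable (fun x : Plane => ((v x : ℝ) : AddCircle (1 : ℝ))) :=
    AddCircle.measurable_mk'.comp hv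
  have hEm : MeasurableSet E := by
    apply (measurable_snd hV).inter
    exact measurableSet_lt (measurable_const (a := h))
      ((hvc.comp measurable_snd).sub measurable_fst).norm
  have key : ∫⁻ s : AddCircle (1 : ℝ), volume (Prod.mk s ⁻¹' E) =
      ENNReal.ofReal (1 - 2 * h) * volume V := by
    rw [← Measure.prod_apply hEm, Measure.prod_apply_symm hEm]
    have hfun : ∀ x : Plane, (volume : Measure (AddCircle (1 : ℝ)))
        ((fun s => (s, x)) ⁻¹' E) = V.indicator (fun _ => ENNReal.ofReal (1 - 2 * h)) x := by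
      intro x
      by_cases hx : x ∈ V
      · rw [indicator_of_mem hx]
        have hset : ((fun s => (s, x)) ⁻¹' E) =
            (Metric.closedBall ((v x : ℝ) : AddCircle (1 : ℝ)) h)ᶜ := by
          ext s
          simp only [hE, mem_preimage, mem_ofPred_eq, hx, true_and, mem_compl_iff,
            Metric.mem_closedBall, not_le, dist_comm s, dist_eq_norm]
        rw [hset, measure_compl Metric.isClosed_closedBall.measurableSet (measure_ne_top _ _),
          AddCircle.volume_closedBall, AddCircle.measure_univ, min_eq_right h1,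
          ENNReal.ofReal_sub _ (by linarith)]
      · rw [indicator_of_notMem hx]
        have hset : ((fun s => (s, x)) ⁻¹' E) = ∅ := by
          ext s
          simp [hE, hx]
        rw [hset, measure_empty]
    simp_rw [hfun]
    rw [lintegral_indicator hV]
    simp
  have hprob : IsProbabilityMeasure (volume : Measure (AddCircle (1 : ℝ))) := by
    constructor
    rw [AddCircle.measure_univ]
    simp
  obtain ⟨s, hs⟩ := exists_le_lintegral (μ := (volume : Measure (AddCircle (1 : ℝ))))
    (f := fun s => volume (Prod.mk s ⁻¹' E)) (measurable_measure_prodMk_left hEm).aemeasurable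
  obtain ⟨s', rfl⟩ := QuotientAddGroup.mk_surjective s
  refine ⟨s', ?_⟩
  rw [key] at hs
  refine le_trans (measure_mono ?_) hs
  rintro x ⟨hx1, hx2⟩
  refine ⟨hx1, ?_⟩
  rw [mem_ofPred_eq, AddCircle.coe_sub] at hx2
  exact hx2

/-- Greedy covering by finitely many periodic strips with prescribed directions. -/
theorem greedy_cover {V : Set Plane} (hV : MeasurableSet V) {h : ℝ} (h0 : 0 ≤ h) (h1 : 2 * h ≤ 1)
    (v : ℕ → Plane → ℝ) (hv : ∀ r, Measurable (v r)) (T : ℕ) :
    ∃ s : ℕ → ℝ, volume (V ∩ {x | ∀ r < T, h < ‖((v r x - s r : ℝ) : AddCircle (1 : ℝ))‖}) ≤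
      ENNReal.ofReal (1 - 2 * h) ^ T * volume V := by
  induction T with
  | zero => exact ⟨fun _ => 0, by simp⟩
  | succ T ih =>
    obtain ⟨s, hs⟩ := ih
    have hmeas : MeasurableSet (V ∩ {x | ∀ r < T, h < ‖((v r x - s r : ℝ) : AddCircle (1 : ℝ))‖}) := by
      apply hV.inter
      have : {x | ∀ r < T, h < ‖((v r x - s r : ℝ) : AddCircle (1 : ℝ))‖} =
          ⋂ r : ℕ, ⋂ _ : r < T, {x | h < ‖((v r x - s r : ℝ) : AddCircle (1 : ℝ))‖} := by
        ext x; simp
      rw [this]
      refine MeasurableSet.iInter fun r => MeasurableSet.iInter fun _ => ?_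
      apply measurableSet_lt measurable_const
      exact (AddCircle.measurable_mk'.comp ((hv r).sub_const _)).norm
    obtain ⟨s', hs'⟩ := greedy_step hmeas (hv T) h0 h1
    refine ⟨fun r => if r = T then s' else s r, ?_⟩
    refine le_trans (measure_mono ?_) (hs'.trans ?_)
    · rintro x ⟨hx1, hx2⟩
      refine ⟨⟨hx1, fun r hr => ?_⟩, ?_⟩
      · have := hx2 r (by omega)
        simp only [if_neg (show r ≠ T by omega)] at this
        exact this
      · have := hx2 T (by omega)
        simp only [if_true] at this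
        exact this
    · rw [pow_succ', mul_assoc]
      gcongr

end Pool.Agent.Helper61.Lacunary
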