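import Mathlib

/-!
# The concave profile

`Phi` is the infimum of a family of parabolas. On the `i`-th block it looks like a polygon whose
sides have slopes in arithmetic progression, with a minute curvature `e i` on each side.
-/

open Set

namespace Pool.Agent.Helper61.Lacunary

/-- Left end of the block `i`. -/
noncomputable def blockLeft (i : ℕ) : ℝ := (1 / 2) ^ (i + 1)

/-- The block `i`. -/
noncomputable def block (i : ℕ) : Set ℝ := Icc (blockLeft i) (blockLeft i + (1 / 2) ^ (i + 2))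

/-- Parameters of the blocks: side length `2^{-L i}`, curvature `e i`, lifts `w i j`. -/
structure BlockData where
  L : ℕ → ℕ
  e : ℕ → ℝ
  w : ℕ → ℕ → ℝ
  hL : ∀ i, i + 5 ≤ L i
  he : ∀ i, 0 < e i
  he' : ∀ i, e i ≤ 1 / 4
  hw : ∀ i j, 0 ≤ w i j
  hw' : ∀ i j, w i j ≤ ((1 / 2) ^ (L i)) ^ 2 / 100

namespace BlockData

variable (B : BlockData)

/-- Side length of block `i`. -/
noncomputable def ell (i : ℕ) : ℝ := (1 / 2) ^ (B.L i)

/-- Number of sides of block `i`. -/
def num (i : ℕ) : ℕ := 2 ^ (B.L i - (i + 2))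

/-- Nodes of block `i`. -/
noncomputable def node (i j : ℕ) : ℝ := blockLeft i + j * B.ell i

/-- The parabola with parameters `c, e, w`. -/
noncomputable def par (q : ℝ × ℝ × ℝ) (t : ℝ) : ℝ :=
  1 - t ^ 2 / 2 + (1 / 2 - q.2.1) * (t - q.1) ^ 2 + q.2.2

/-- The family of parameters. -/
def params : Set (ℝ × ℝ × ℝ) :=
  {q | q.1 ∈ Icc (-1 : ℝ) 1 ∧ (∀ i, q.1 ∉ block i) ∧ q.2.1 = 1 / 4 ∧ q.2.2 = 0} ∪
  {q | ∃ i j, j ≤ B.num i ∧ q = (B.node i j, B.e i, B.w i j)}

/-- The concave profile. -/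
noncomputable def Phi (t : ℝ) : ℝ := ⨅ q : B.params, par q.1 t

theorem ell_pos (i : ℕ) : 0 < B.ell i := by unfold ell; positivity

theorem ell_le (i : ℕ) : B.ell i ≤ (1 / 2) ^ (i + 5) := by
  unfold ell
  exact pow_le_pow_of_le_one (by norm_num) (by norm_num) (B.hL i)

theorem num_mul_ell (i : ℕ) : (B.num i : ℝ) * B.ell i = (1 / 2) ^ (i + 2) := by
  unfold num ell
  have h := B.hL i
  obtain ⟨k, hk⟩ : ∃ k, B.L i = (i + 2) + k := ⟨B.L i - (i + 2), by omega⟩
  rw [hk, Nat.add_sub_cancel_left, pow_add (1 / 2 : ℝ) (i + 2) k]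
  push_cast
  have : (2 : ℝ) ^ k * (1 / 2) ^ k = 1 := by rw [← mul_pow]; norm_num
  calc (2 : ℝ) ^ k * ((1 / 2) ^ (i + 2) * (1 / 2) ^ k) = (1 / 2) ^ (i + 2) * ((2 : ℝ) ^ k * (1 / 2) ^ k) := by ring
    _ = _ := by rw [this, mul_one]

theorem eight_le_num (i : ℕ) : 8 ≤ B.num i := by
  unfold num
  have h := B.hL i
  calc 8 = 2 ^ 3 := by norm_num
    _ ≤ 2 ^ (B.L i - (i + 2)) := Nat.pow_le_pow_right (by norm_num) (by omega)

theorem node_mem {i j : ℕ} (hj : j ≤ B.num i) : B.node i j ∈ block i := by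
  unfold node block
  have h1 := B.ell_pos i
  have h2 := B.num_mul_ell i
  have h3 : (j : ℝ) ≤ B.num i := by exact_mod_cast hj
  constructor
  · have : 0 ≤ (j : ℝ) * B.ell i := by positivity
    linarith
  · have : (j : ℝ) * B.ell i ≤ B.num i * B.ell i := by gcongr
    linarith

theorem block_subset (i : ℕ) : block i ⊆ Icc (0 : ℝ) (3 / 4) := by
  unfold block blockLeft
  rintro t ⟨h1, h2⟩
  have h3 : (1 / 2 : ℝ) ^ (i + 1) ≤ 1 / 2 := by
    calc (1 / 2 : ℝ) ^ (i + 1) ≤ (1 / 2) ^ 1 := pow_le_pow_of_le_one (by norm_num) (by norm_num) (by omega)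
      _ = 1 / 2 := by norm_num
  have h4 : (1 / 2 : ℝ) ^ (i + 2) ≤ 1 / 4 := by
    calc (1 / 2 : ℝ) ^ (i + 2) ≤ (1 / 2) ^ 2 := pow_le_pow_of_le_one (by norm_num) (by norm_num) (by omega)
      _ = 1 / 4 := by norm_num
  have h5 : (0 : ℝ) < (1 / 2) ^ (i + 1) := by positivity
  constructor <;> linarith

/-- Separation of the blocks (ordered version). -/
theorem separation_lt {i i' : ℕ} (h : i < i') {s t : ℝ} (hs : s ∈ block i) (ht : t ∈ block i') :
    (1 / 2) ^ (i + 3) ≤ s - t := by
  unfold block blockLeft at hs ht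
  have h1 : (1 / 2 : ℝ) ^ (i' + 1) ≤ (1 / 2) ^ (i + 2) :=
    pow_le_pow_of_le_one (by norm_num) (by norm_num) (by omega)
  have h2 : (1 / 2 : ℝ) ^ (i' + 2) ≤ (1 / 2) ^ (i + 3) :=
    pow_le_pow_of_le_one (by norm_num) (by norm_num) (by omega)
  have h3 : (1 / 2 : ℝ) ^ (i + 1) = 4 * (1 / 2) ^ (i + 3) := by
    rw [pow_add, pow_add (1 / 2 : ℝ) i 3]; ring
  have h4 : (1 / 2 : ℝ) ^ (i + 2) = 2 * (1 / 2) ^ (i + 3) := by
    rw [pow_add, pow_add (1 / 2 : ℝ) i 3]; ring
  linarith [hs.1, ht.2]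

/-- Points of different blocks are far apart. -/
theorem separation {i i' : ℕ} (h : i ≠ i') {s t : ℝ} (hs : s ∈ block i) (ht : t ∈ block i') :
    4 * B.ell i ≤ |s - t| ∧ 4 * B.ell i' ≤ |s - t| := by
  have key : ∀ {i i' : ℕ}, i < i' → ∀ {s t : ℝ}, s ∈ block i → t ∈ block i' →
      4 * B.ell i ≤ |s - t| ∧ 4 * B.ell i' ≤ |s - t| := by
    intro i i' h s t hs ht
    have h1 := separation_lt h hs ht
    have h2 := B.ell_le i
    have h3 := B.ell_le i'
    have h4 : (1 / 2 : ℝ) ^ (i' + 5) ≤ (1 / 2) ^ (i + 5) :=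
      pow_le_pow_of_le_one (by norm_num) (by norm_num) (by omega)
    have h5 : (1 / 2 : ℝ) ^ (i + 3) = 4 * (1 / 2) ^ (i + 5) := by
      rw [pow_add, pow_add (1 / 2 : ℝ) i 5]; ring
    have h6 := le_abs_self (s - t)
    constructor <;> linarith
  rcases lt_or_gt_of_ne h with h | h
  · exact key h hs ht
  · have := key h ht hs
    rw [abs_sub_comm]
    exact ⟨this.2, this.1⟩

/-- Every point of a block is close to a node. -/
theorem exists_node {i : ℕ} {m : ℝ} (hm : m ∈ block i) :
    ∃ j ≤ B.num i, |m - B.node i j| ≤ B.ell i / 2 := by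
  unfold block at hm
  have h1 := B.ell_pos i
  have h2 := B.num_mul_ell i
  set u : ℝ := (m - blockLeft i) / B.ell i with hu
  have hu0 : 0 ≤ u := div_nonneg (by linarith [hm.1]) h1.le
  have huN : u ≤ B.num i := by
    rw [hu, div_le_iff₀ h1, h2]
    linarith [hm.2]
  have hmu : m = blockLeft i + u * B.ell i := by
    rw [hu]; field_simp; ring
  set j : ℕ := ⌊u + 1 / 2⌋₊ with hj
  have hj1 : (j : ℝ) ≤ u + 1 / 2 := Nat.floor_le (by linarith)
  have hj2 : u + 1 / 2 < j + 1 := Nat.lt_floor_add_one _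
  refine ⟨j, ?_, ?_⟩
  · have : (j : ℝ) < B.num i + 1 := by linarith
    have h3 : j < B.num i + 1 := by exact_mod_cast this
    omega
  · unfold node
    rw [hmu]
    have : blockLeft i + u * B.ell i - (blockLeft i + j * B.ell i) = (u - j) * B.ell i := by ring
    rw [this, abs_mul, abs_of_pos h1]
    have h4 : |u - j| ≤ 1 / 2 := by
      rw [abs_le]
      constructor <;> linarith
    calc |u - j| * B.ell i ≤ 1 / 2 * B.ell i := by gcongr
      _ = _ := by ring

theorem params_nonneg {q : ℝ × ℝ × ℝ} (hq : q ∈ B.params) :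
    q.1 ∈ Icc (-1 : ℝ) 1 ∧ 0 < q.2.1 ∧ q.2.1 ≤ 1 / 4 ∧ 0 ≤ q.2.2 := by
  rcases hq with ⟨h1, _, h2, h3⟩ | ⟨i, j, hj, rfl⟩
  · exact ⟨h1, by rw [h2]; norm_num, by rw [h2], by rw [h3]⟩
  · have := block_subset i (B.node_mem hj)
    exact ⟨⟨by linarith [this.1], by linarith [this.2]⟩, B.he i, B.he' i, B.hw i j⟩

theorem par_ge {q : ℝ × ℝ × ℝ} (hq : q ∈ B.params) (t : ℝ) : 1 - t ^ 2 / 2 ≤ par q t := by
  obtain ⟨_, _, h1, h2⟩ := B.params_nonneg hq
  unfold par
  have : 0 ≤ (1 / 2 - q.2.1) * (t - q.1) ^ 2 := mul_nonneg (by linarith) (sq_nonneg _)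
  linarith

instance : Nonempty B.params :=
  ⟨⟨(B.node 0 0, B.e 0, B.w 0 0), Or.inr ⟨0, 0, Nat.zero_le _, rfl⟩⟩⟩

theorem Phi_le {q : ℝ × ℝ × ℝ} (hq : q ∈ B.params) (t : ℝ) : B.Phi t ≤ par q t := by
  refine ciInf_le ⟨1 - t ^ 2 / 2, ?_⟩ (⟨q, hq⟩ : B.params)
  rintro _ ⟨x, rfl⟩
  exact B.par_ge x.2 t

theorem le_Phi {t r : ℝ} (h : ∀ q ∈ B.params, r ≤ par q t) : r ≤ B.Phi t :=
  le_ciInf fun x => h x.1 x.2

theorem Phi_ge (t : ℝ) : 1 - t ^ 2 / 2 ≤ B.Phi t := B.le_Phi fun _ hq => B.par_ge hq t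

/-- Outside the blocks the profile is the exact parabola. -/
theorem Phi_eq {t : ℝ} (ht : t ∈ Icc (-1 : ℝ) 1) (ht' : ∀ i, t ∉ block i) :
    B.Phi t = 1 - t ^ 2 / 2 := by
  apply le_antisymm _ (B.Phi_ge t)
  have : (t, (1 / 4 : ℝ), (0 : ℝ)) ∈ B.params := Or.inl ⟨ht, ht', rfl, rfl⟩
  refine (B.Phi_le this t).trans ?_
  simp [par]

theorem Phi_le_block {t : ℝ} {i : ℕ} (ht : t ∈ block i) :
    B.Phi t ≤ 1 - t ^ 2 / 2 + B.ell i ^ 2 / 4 := by
  obtain ⟨j, hj, hjt⟩ := B.exists_node ht
  refine (B.Phi_le (Or.inr ⟨i, j, hj, rfl⟩) t).trans ?_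
  have h1 := B.hw' i j
  have h2 := B.he i
  have h3 : (t - B.node i j) ^ 2 ≤ (B.ell i / 2) ^ 2 := by
    rw [← sq_abs (t - B.node i j)]
    gcongr
  have h4 : (1 / 2 - B.e i) * (t - B.node i j) ^ 2 ≤ 1 / 2 * (B.ell i / 2) ^ 2 := by
    have h5 := B.he' i
    gcongr
    linarith
  unfold par
  simp only
  have h6 : ((1 / 2 : ℝ) ^ (B.L i)) ^ 2 = B.ell i ^ 2 := rfl
  rw [h6] at h1
  nlinarith [sq_nonneg (B.ell i)]

/-- Near an interior node the profile is the corresponding parabola. -/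
theorem Phi_eq_node {i j : ℕ} (hj1 : 1 ≤ j) (hj2 : j + 1 ≤ B.num i) {t : ℝ}
    (ht : |t - B.node i j| ≤ B.ell i / 4) :
    B.Phi t = par (B.node i j, B.e i, B.w i j) t := by
  apply le_antisymm
  · exact B.Phi_le (Or.inr ⟨i, j, by omega, rfl⟩) t
  · apply B.le_Phi
    intro q hq
    have hell := B.ell_pos i
    -- either same node or far away
    by_cases hqq : q = (B.node i j, B.e i, B.w i j)
    · rw [hqq]
    · have hfar : B.ell i ≤ |q.1 - B.node i j| := by
        have hN := B.num_mul_ell i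
        have hj1' : (1 : ℝ) ≤ j := by exact_mod_cast hj1
        have hj2' : (j : ℝ) + 1 ≤ B.num i := by exact_mod_cast hj2
        have hout : ∀ c : ℝ, c ∉ block i → B.ell i ≤ |c - B.node i j| := by
          intro c hc
          unfold block at hc
          rw [mem_Icc, not_and_or, not_le, not_le] at hc
          unfold node
          rcases hc with hc | hc
          · have h1 : B.ell i ≤ j * B.ell i := by nlinarith
            rw [abs_sub_comm]
            refine le_trans ?_ (le_abs_self _)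
            linarith
          · have h1 : (j : ℝ) * B.ell i + B.ell i ≤ (1 / 2) ^ (i + 2) := by
              rw [← hN]
              nlinarith
            refine le_trans ?_ (le_abs_self _)
            linarith
        rcases hq with ⟨_, h2, _, _⟩ | ⟨i', j', hj', rfl⟩
        · exact hout _ (h2 i)
        · by_cases hi : i' = i
          · subst hi
            have hjj : j' ≠ j := by
              rintro rfl
              exact hqq rfl
            simp only
            unfold node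
            have : blockLeft i' + (j' : ℝ) * B.ell i' - (blockLeft i' + j * B.ell i') =
                ((j' : ℝ) - j) * B.ell i' := by ring
            rw [this, abs_mul, abs_of_pos hell]
            have h3 : (1 : ℝ) ≤ |(j' : ℝ) - j| := by
              have h4 : (1 : ℤ) ≤ |(j' : ℤ) - j| := by
                apply Int.one_le_abs
                omega
              exact_mod_cast h4
            nlinarith
          · have h3 := (B.separation hi (B.node_mem hj') (B.node_mem (show j ≤ B.num i by omega))).2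
            simp only
            linarith
      obtain ⟨_, _, h1, h2⟩ := B.params_nonneg hq
      have h3 := B.hw' i j
      have h3' : B.w i j ≤ B.ell i ^ 2 / 100 := h3
      have h4 : 3 / 4 * B.ell i ≤ |t - q.1| := by
        have h5 : |q.1 - B.node i j| ≤ |t - q.1| + |t - B.node i j| := by
          have : q.1 - B.node i j = -(t - q.1) + (t - B.node i j) := by ring
          rw [this]
          refine (abs_add_le _ _).trans ?_
          rw [abs_neg]
        linarith
      have h6 : (3 / 4 * B.ell i) ^ 2 ≤ (t - q.1) ^ 2 := by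
        rw [← sq_abs (t - q.1)]
        gcongr
      have h7 : (t - B.node i j) ^ 2 ≤ (B.ell i / 4) ^ 2 := by
        rw [← sq_abs (t - B.node i j)]
        gcongr
      have h8 : (1 / 2 - B.e i) * (t - B.node i j) ^ 2 ≤ 1 / 2 * (B.ell i / 4) ^ 2 := by
        have h9 := B.he i
        have h10 := B.he' i
        gcongr
        linarith
      have h9 : 1 / 4 * (3 / 4 * B.ell i) ^ 2 ≤ (1 / 2 - q.2.1) * (t - q.1) ^ 2 :=
        mul_le_mul (by linarith) h6 (by positivity) (by linarith)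
      unfold par
      simp only
      nlinarith [sq_nonneg (B.ell i)]

theorem par_mid (q : ℝ × ℝ × ℝ) (a b : ℝ) :
    par q ((a + b) / 2) = (par q a + par q b) / 2 + q.2.1 * (b - a) ^ 2 / 4 := by
  unfold par
  ring

theorem par_concave {q : ℝ × ℝ × ℝ} (hq : 0 < q.2.1) : ConcaveOn ℝ univ (par q) := by
  refine ⟨convex_univ, ?_⟩
  intro x _ y _ a b ha hb hab
  simp only [smul_eq_mul]
  have hb' : b = 1 - a := by linarith
  subst hb'
  unfold par
  nlinarith [mul_nonneg (mul_nonneg ha hb) (mul_nonneg hq.le (sq_nonneg (x - y)))]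

theorem Phi_concave : ConcaveOn ℝ univ B.Phi := by
  refine ⟨convex_univ, ?_⟩
  intro x _ y _ a b ha hb hab
  apply B.le_Phi
  intro q hq
  have h1 := (par_concave (B.params_nonneg hq).2.1).2 (mem_univ x) (mem_univ y) ha hb hab
  refine le_trans ?_ h1
  simp only [smul_eq_mul]
  have h2 := B.Phi_le hq x
  have h3 := B.Phi_le hq y
  gcongr

theorem Phi_lip {s t : ℝ} (hs : s ∈ Icc (-1 : ℝ) 1) (ht : t ∈ Icc (-1 : ℝ) 1) :
    |B.Phi s - B.Phi t| ≤ |s - t| := by
  have key : ∀ s ∈ Icc (-1 : ℝ) 1, ∀ t ∈ Icc (-1 : ℝ) 1, B.Phi s ≤ B.Phi t + |s - t| := by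
    intro s hs t ht
    have : B.Phi s - |s - t| ≤ B.Phi t := by
      apply B.le_Phi
      intro q hq
      obtain ⟨h1, h2, h3, h4⟩ := B.params_nonneg hq
      have h5 := B.Phi_le hq s
      have h6 : par q s - par q t = -(s - t) * (q.2.1 * (s + t) + (1 - 2 * q.2.1) * q.1) := by
        unfold par; ring
      have h7 : |q.2.1 * (s + t) + (1 - 2 * q.2.1) * q.1| ≤ 1 := by
        rw [abs_le]
        constructor
        · nlinarith [hs.1, ht.1, h1.1]
        · nlinarith [hs.2, ht.2, h1.2]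
      have h8 : par q s - par q t ≤ |s - t| := by
        rw [h6]
        refine (le_abs_self _).trans ?_
        rw [abs_mul, abs_neg]
        calc _ ≤ |s - t| * 1 := by gcongr
          _ = _ := mul_one _
      linarith
    linarith
  rw [abs_le]
  constructor
  · have := key t ht s hs
    rw [abs_sub_comm] at this
    linarith
  · have := key s hs t ht
    linarith

/-- Midpoint concavity outside the blocks. -/
theorem mid_out {a b : ℝ} (hm : (a + b) / 2 ∈ Icc (-1 : ℝ) 1) (hm' : ∀ i, (a + b) / 2 ∉ block i) :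
    (B.Phi a + B.Phi b) / 2 + (b - a) ^ 2 / 16 ≤ B.Phi ((a + b) / 2) := by
  have hq : ((a + b) / 2, (1 / 4 : ℝ), (0 : ℝ)) ∈ B.params := Or.inl ⟨hm, hm', rfl, rfl⟩
  have h1 := par_mid ((a + b) / 2, (1 / 4 : ℝ), (0 : ℝ)) a b
  have h2 : par ((a + b) / 2, (1 / 4 : ℝ), (0 : ℝ)) ((a + b) / 2) = 1 - ((a + b) / 2) ^ 2 / 2 := by
    simp [par]
  have h3 := B.Phi_ge ((a + b) / 2)
  have h4 := B.Phi_le hq a
  have h5 := B.Phi_le hq b
  simp only at h1
  linarith

/-- Midpoint concavity inside a block. -/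
theorem mid_in {a b : ℝ} {i : ℕ} (hm : (a + b) / 2 ∈ block i) :
    (B.Phi a + B.Phi b) / 2 + B.e i * (b - a) ^ 2 / 4 ≤ B.Phi ((a + b) / 2) := by
  -- the bound for parameters with curvature at least `e i`
  have good : ∀ q ∈ B.params, B.e i ≤ q.2.1 →
      (B.Phi a + B.Phi b) / 2 + B.e i * (b - a) ^ 2 / 4 ≤ par q ((a + b) / 2) := by
    intro q hq he
    rw [par_mid]
    have h4 := B.Phi_le hq a
    have h5 := B.Phi_le hq b
    have h6 : B.e i * (b - a) ^ 2 ≤ q.2.1 * (b - a) ^ 2 := by gcongr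
    linarith
  obtain ⟨j, hj, hjt⟩ := B.exists_node hm
  have hnode : (B.node i j, B.e i, B.w i j) ∈ B.params := Or.inr ⟨i, j, hj, rfl⟩
  have h1 := good _ hnode le_rfl
  apply B.le_Phi
  intro q hq
  by_cases he : B.e i ≤ q.2.1
  · exact good q hq he
  · -- then `q` is a node of another block
    rcases id hq with ⟨_, _, h2, _⟩ | ⟨i', j', hj', rfl⟩
    · exfalso
      rw [h2] at he
      exact he (B.he' i)
    · have hi : i' ≠ i := by
        rintro rfl
        exact he le_rfl
      refine h1.trans ?_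
      have hsep := (B.separation hi (B.node_mem hj') hm).2
      have hell := B.ell_pos i
      have h3 : B.w i j ≤ B.ell i ^ 2 / 100 := B.hw' i j
      have h7 : ((a + b) / 2 - B.node i j) ^ 2 ≤ (B.ell i / 2) ^ 2 := by
        rw [← sq_abs ((a + b) / 2 - B.node i j)]
        gcongr
      have h8 : (1 / 2 - B.e i) * ((a + b) / 2 - B.node i j) ^ 2 ≤ 1 / 2 * (B.ell i / 2) ^ 2 := by
        have h9 := B.he i
        have h10 := B.he' i
        gcongr
        linarith
      have h6 : (4 * B.ell i) ^ 2 ≤ ((a + b) / 2 - B.node i' j') ^ 2 := by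
        rw [← sq_abs ((a + b) / 2 - B.node i' j'), abs_sub_comm]
        gcongr
      have h9 : 1 / 4 * (4 * B.ell i) ^ 2 ≤
          (1 / 2 - B.e i') * ((a + b) / 2 - B.node i' j') ^ 2 := by
        have := B.he' i'
        exact mul_le_mul (by linarith) h6 (by positivity) (by linarith)
      have h10 := B.hw i' j'
      unfold par
      simp only
      nlinarith [sq_nonneg (B.ell i)]

/-- The key lemma: a small midpoint gap forces a short interval. -/
theorem gap_lemma {a b G : ℝ} (ha : a ∈ Icc (-1 : ℝ) 1) (hb : b ∈ Icc (-1 : ℝ) 1)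
    (hG : B.Phi ((a + b) / 2) - (B.Phi a + B.Phi b) / 2 ≤ G) :
    (b - a) ^ 2 ≤ 16 * G ∨ ∃ i, |b - a| < 8 * B.ell i ∧ B.e i * (b - a) ^ 2 ≤ 4 * G := by
  have hm : (a + b) / 2 ∈ Icc (-1 : ℝ) 1 := ⟨by linarith [ha.1, hb.1], by linarith [ha.2, hb.2]⟩
  by_cases hmb : ∀ i, (a + b) / 2 ∉ block i
  · left
    have := B.mid_out hm hmb
    linarith
  · push Not at hmb
    obtain ⟨i, hi⟩ := hmb
    by_cases hD : |b - a| < 8 * B.ell i
    · right
      refine ⟨i, hD, ?_⟩
      have := B.mid_in hi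
      linarith
    · left
      rw [not_lt] at hD
      have bound : ∀ t ∈ Icc (-1 : ℝ) 1, |t - (a + b) / 2| = |b - a| / 2 →
          B.Phi t ≤ 1 - t ^ 2 / 2 + (b - a) ^ 2 / 256 := by
        intro t ht htd
        by_cases htb : ∀ i, t ∉ block i
        · rw [B.Phi_eq ht htb]
          nlinarith [sq_nonneg (b - a)]
        · push Not at htb
          obtain ⟨i', hi'⟩ := htb
          have h1 := B.Phi_le_block hi'
          have h2 : 8 * B.ell i' ≤ |b - a| := by
            by_cases hii : i' = i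
            · rw [hii]; exact hD
            · have := (B.separation hii hi' hi).1
              rw [htd] at this
              linarith
          have h3 : (8 * B.ell i') ^ 2 ≤ (b - a) ^ 2 := by
            rw [← sq_abs (b - a)]
            have := B.ell_pos i'
            gcongr
          nlinarith
      have hA := bound a ha (by
        have : a - (a + b) / 2 = -((b - a) / 2) := by ring
        rw [this, abs_neg, abs_div, abs_two])
      have hB := bound b hb (by
        have : b - (a + b) / 2 = (b - a) / 2 := by ring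
        rw [this, abs_div, abs_two])
      have h3 := B.Phi_ge ((a + b) / 2)
      nlinarith [sq_nonneg (b - a)]

theorem Phi_one : B.Phi 1 = 1 / 2 := by
  rw [B.Phi_eq ⟨by norm_num, le_refl _⟩]
  · norm_num
  · intro i hi
    have := (block_subset i hi).2
    norm_num at this

theorem Phi_neg_one : B.Phi (-1) = 1 / 2 := by
  rw [B.Phi_eq ⟨le_refl _, by norm_num⟩]
  · norm_num
  · intro i hi
    have := (block_subset i hi).1
    norm_num at this

end BlockData

end Pool.Agent.Helper61.Lacunary
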