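import Mathlib
import Pool.Agent.Helper61.Lacunary.Circle
import Pool.Agent.Helper61.Lacunary.Profile
import Pool.Agent.Helper61.Lacunary.Defs

/-!
# The convex region below the profile
-/

open MeasureTheory Set
open scoped ENNReal RealInnerProductSpace

namespace Pool.Agent.Helper61.Lacunary

/-- The point of the graph of `f` above `t`. -/
noncomputable def gr (f : ℝ → ℝ) (t : ℝ) : Plane := !₂[t, f t]

@[simp] theorem gr_zero (f : ℝ → ℝ) (t : ℝ) : gr f t 0 = t := by simp [gr]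

@[simp] theorem gr_one (f : ℝ → ℝ) (t : ℝ) : gr f t 1 = f t := by simp [gr]

/-- The bottom curve. -/
noncomputable def bot (t : ℝ) : ℝ := 3 / 2 * t ^ 2 - 1

theorem inner_plane (z θ : Plane) : ⟪z, θ⟫ = z 0 * θ 0 + z 1 * θ 1 := by
  rw [PiLp.inner_apply, Fin.sum_univ_two]
  simp [mul_comm]

theorem norm_plane_sq (θ : Plane) : ‖θ‖ ^ 2 = θ 0 ^ 2 + θ 1 ^ 2 := by
  rw [EuclideanSpace.norm_sq_eq, Fin.sum_univ_two]
  simp

theorem eq_gr {z : Plane} {f : ℝ → ℝ} (h : z 1 = f (z 0)) : z = gr f (z 0) := by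
  ext i
  fin_cases i
  · simp
  · simpa using h

/-! ### Supporting lines -/

theorem capPlus_spec {Ω : Set Plane} (hb : Bornology.IsBounded Ω) {θ : Plane} (hθ : ‖θ‖ = 1)
    {δ : ℝ} {y : Plane} (hy : y ∈ capPlus Ω θ δ) : ∀ z ∈ closure Ω, ⟪z, θ⟫ ≤ ⟪y, θ⟫ + δ := by
  obtain ⟨_, hy⟩ := hy
  set S := sSup ((fun y => ⟪y, θ⟫) '' Ω) with hS
  obtain ⟨R, hR⟩ := hb.exists_norm_le
  have hbdd : BddAbove ((fun y => ⟪y, θ⟫) '' Ω) := by
    refine ⟨R, ?_⟩
    rintro _ ⟨z, hz, rfl⟩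
    calc ⟪z, θ⟫ ≤ ‖z‖ * ‖θ‖ := real_inner_le_norm _ _
      _ ≤ R := by rw [hθ, mul_one]; exact hR z hz
  have h1 : ∀ z ∈ closure Ω, ⟪z, θ⟫ ≤ S := by
    have hcl : IsClosed {z : Plane | ⟪z, θ⟫ ≤ S} :=
      isClosed_le (continuous_id.inner continuous_const) continuous_const
    intro z hz
    exact closure_minimal (fun z hz => le_csSup hbdd ⟨z, hz, rfl⟩) hcl hz
  have h2 : S - ⟪y, θ⟫ ≤ Metric.infDist y (linePlus Ω θ) := by
    rw [Metric.le_infDist]
    · intro w hw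
      have hw' : ⟪w, θ⟫ = S := hw
      rw [← hw', ← inner_sub_left, dist_comm, dist_eq_norm]
      calc ⟪w - y, θ⟫ ≤ ‖w - y‖ * ‖θ‖ := real_inner_le_norm _ _
        _ = ‖w - y‖ := by rw [hθ, mul_one]
    · refine ⟨S • θ, ?_⟩
      change ⟪S • θ, θ⟫ = S
      rw [real_inner_smul_left, real_inner_self_eq_norm_sq, hθ]
      ring
  intro z hz
  linarith [h1 z hz]

theorem capMinus_spec {Ω : Set Plane} (hb : Bornology.IsBounded Ω) {θ : Plane} (hθ : ‖θ‖ = 1)
    {δ : ℝ} {y : Plane} (hy : y ∈ capMinus Ω θ δ) :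
    ∀ z ∈ closure Ω, ⟪z, -θ⟫ ≤ ⟪y, -θ⟫ + δ := by
  obtain ⟨_, hy⟩ := hy
  set S := sInf ((fun y => ⟪y, θ⟫) '' Ω) with hS
  obtain ⟨R, hR⟩ := hb.exists_norm_le
  have hbdd : BddBelow ((fun y => ⟪y, θ⟫) '' Ω) := by
    refine ⟨-R, ?_⟩
    rintro _ ⟨z, hz, rfl⟩
    have h := abs_real_inner_le_norm z θ
    rw [hθ, mul_one] at h
    have h' := neg_abs_le ⟪z, θ⟫
    have := hR z hz
    simp only
    linarith
  have h1 : ∀ z ∈ closure Ω, S ≤ ⟪z, θ⟫ := by
    have hcl : IsClosed {z : Plane | S ≤ ⟪z, θ⟫} :=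
      isClosed_le continuous_const (continuous_id.inner continuous_const)
    intro z hz
    exact closure_minimal (fun z hz => csInf_le hbdd ⟨z, hz, rfl⟩) hcl hz
  have h2 : ⟪y, θ⟫ - S ≤ Metric.infDist y (lineMinus Ω θ) := by
    rw [Metric.le_infDist]
    · intro w hw
      have hw' : ⟪w, θ⟫ = S := hw
      rw [← hw', ← inner_sub_left, dist_eq_norm]
      calc ⟪y - w, θ⟫ ≤ ‖y - w‖ * ‖θ‖ := real_inner_le_norm _ _
        _ = ‖y - w‖ := by rw [hθ, mul_one]
    · refine ⟨S • θ, ?_⟩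
      change ⟪S • θ, θ⟫ = S
      rw [real_inner_smul_left, real_inner_self_eq_norm_sq, hθ]
      ring
  intro z hz
  rw [inner_neg_right, inner_neg_right]
  linarith [h1 z hz]

namespace BlockData

variable (B : BlockData)

/-- The convex region. -/
def region : Set Plane :=
  {z | z 0 ∈ Ioo (-1 : ℝ) 1 ∧ bot (z 0) < z 1 ∧ z 1 < B.Phi (z 0)}

theorem Phi_continuousOn : ContinuousOn B.Phi (Icc (-1 : ℝ) 1) := by
  have : LipschitzOnWith 1 B.Phi (Icc (-1 : ℝ) 1) := by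
    apply LipschitzOnWith.of_dist_le_mul
    intro s hs t ht
    rw [Real.dist_eq, Real.dist_eq]
    simpa using B.Phi_lip hs ht
  exact this.continuousOn

theorem bot_continuous : Continuous bot := by unfold bot; fun_prop

theorem bot_lt_Phi {t : ℝ} (ht : t ∈ Ioo (-1 : ℝ) 1) : bot t < B.Phi t := by
  have := B.Phi_ge t
  unfold bot
  nlinarith [ht.1, ht.2]

theorem Phi_le_two {t : ℝ} (ht : t ∈ Icc (-1 : ℝ) 1) : |B.Phi t| ≤ 3 := by
  have h1 := B.Phi_lip ht (show (1 : ℝ) ∈ Icc (-1 : ℝ) 1 from ⟨by norm_num, le_refl _⟩)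
  rw [B.Phi_one] at h1
  have h2 : |t - 1| ≤ 2 := by rw [abs_le]; constructor <;> linarith [ht.1, ht.2]
  rw [abs_le] at h1 ⊢
  constructor <;> linarith [h1.1, h1.2]

theorem coord_continuousOn (s : Set ℝ) (hs : s ⊆ Icc (-1 : ℝ) 1) :
    ContinuousOn (fun z : Plane => (z 1 - bot (z 0), B.Phi (z 0) - z 1))
      {z : Plane | z 0 ∈ s} := by
  have h0 : Continuous (fun z : Plane => z 0) := by fun_prop
  have h1 : Continuous (fun z : Plane => z 1) := by fun_prop
  apply ContinuousOn.prodMk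
  · exact (h1.sub (bot_continuous.comp h0)).continuousOn
  · apply ContinuousOn.sub _ h1.continuousOn
    exact (B.Phi_continuousOn.mono hs).comp h0.continuousOn (fun z hz => hz)

theorem region_isOpen : IsOpen B.region := by
  have h0 : Continuous (fun z : Plane => z 0) := by fun_prop
  have h := (B.coord_continuousOn (Ioo (-1) 1) Ioo_subset_Icc_self).isOpen_inter_preimage
    (isOpen_Ioo.preimage h0) (isOpen_Ioi.prod isOpen_Ioi (s := Ioi (0 : ℝ)) (t := Ioi (0 : ℝ)))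
  have heq : B.region = {z : Plane | z 0 ∈ Ioo (-1 : ℝ) 1} ∩
      (fun z : Plane => (z 1 - bot (z 0), B.Phi (z 0) - z 1)) ⁻¹' (Ioi 0 ×ˢ Ioi 0) := by
    ext z
    simp only [region, mem_inter_iff, mem_preimage, mem_prod, mem_Ioi, sub_pos, mem_ofPred_eq]
  rw [heq]
  exact h

theorem closure_region_subset :
    closure B.region ⊆ {z | z 0 ∈ Icc (-1 : ℝ) 1 ∧ bot (z 0) ≤ z 1 ∧ z 1 ≤ B.Phi (z 0)} := by
  have h0 : Continuous (fun z : Plane => z 0) := by fun_prop
  have h := (B.coord_continuousOn (Icc (-1) 1) le_rfl).preimage_isClosed_of_isClosed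
    (isClosed_Icc.preimage h0) (isClosed_Ici.prod isClosed_Ici (s₁ := Ici (0 : ℝ)) (s₂ := Ici (0 : ℝ)))
  have heq : {z : Plane | z 0 ∈ Icc (-1 : ℝ) 1 ∧ bot (z 0) ≤ z 1 ∧ z 1 ≤ B.Phi (z 0)} =
      {z : Plane | z 0 ∈ Icc (-1 : ℝ) 1} ∩
      (fun z : Plane => (z 1 - bot (z 0), B.Phi (z 0) - z 1)) ⁻¹' (Ici 0 ×ˢ Ici 0) := by
    ext z
    simp only [mem_inter_iff, mem_preimage, mem_prod, mem_Ici, sub_nonneg, mem_ofPred_eq]
  rw [heq]
  refine closure_minimal ?_ h
  rw [← heq]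
  rintro z ⟨h1, h2, h3⟩
  exact ⟨Ioo_subset_Icc_self h1, h2.le, h3.le⟩

theorem region_convex : Convex ℝ B.region := by
  intro z hz w hw a b ha hb hab
  obtain ⟨hz0, hz1, hz2⟩ := hz
  obtain ⟨hw0, hw1, hw2⟩ := hw
  have e0 : (a • z + b • w) 0 = a * z 0 + b * w 0 := by simp
  have e1 : (a • z + b • w) 1 = a * z 1 + b * w 1 := by simp
  have hΦ := B.Phi_concave.2 (mem_univ (z 0)) (mem_univ (w 0)) ha hb hab
  simp only [smul_eq_mul] at hΦ
  have hb' : b = 1 - a := by linarith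
  have hcases : (a = 0 ∧ b = 1) ∨ 0 < a := by
    rcases ha.eq_or_lt with h | h
    · left; exact ⟨h.symm, by linarith⟩
    · right; exact h
  have hbot : bot (a * z 0 + b * w 0) ≤ a * bot (z 0) + b * bot (w 0) := by
    unfold bot
    subst hb'
    nlinarith [mul_nonneg (mul_nonneg ha hb) (sq_nonneg (z 0 - w 0))]
  refine ⟨?_, ?_, ?_⟩
  · rw [e0]
    have h := (convex_Ioo (-1 : ℝ) 1) hz0 hw0 ha hb hab
    simpa [smul_eq_mul] using h
  · rw [e0, e1]
    refine lt_of_le_of_lt hbot ?_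
    rcases hcases with ⟨h1, h2⟩ | h
    · rw [h1, h2]; linarith
    · have h3 : a * bot (z 0) < a * z 1 := by gcongr
      have h4 : b * bot (w 0) ≤ b * w 1 := by gcongr
      linarith
  · rw [e0, e1]
    refine lt_of_lt_of_le ?_ hΦ
    rcases hcases with ⟨h1, h2⟩ | h
    · rw [h1, h2]; linarith
    · have h3 : a * z 1 < a * B.Phi (z 0) := by gcongr
      have h4 : b * w 1 ≤ b * B.Phi (w 0) := by gcongr
      linarith

theorem region_zero_mem : (0 : Plane) ∈ B.region := by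
  refine ⟨by simp, ?_, ?_⟩
  · simp [bot]
  · have := B.Phi_ge 0
    simp only [PiLp.zero_apply]
    norm_num at this
    linarith

theorem region_isBounded : Bornology.IsBounded B.region := by
  rw [isBounded_iff_forall_norm_le]
  refine ⟨4, ?_⟩
  rintro z ⟨h0, h1, h2⟩
  have h3 := B.Phi_le_two (Ioo_subset_Icc_self h0)
  have h4 : z 1 ^ 2 ≤ 9 := by
    have : |z 1| ≤ 3 := by
      rw [abs_le]
      constructor
      · unfold bot at h1
        nlinarith [sq_nonneg (z 0)]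
      · linarith [(abs_le.mp h3).2]
    rw [← sq_abs]
    nlinarith [abs_nonneg (z 1)]
  have h5 : z 0 ^ 2 ≤ 1 := by nlinarith [h0.1, h0.2]
  have h6 := norm_plane_sq z
  nlinarith [norm_nonneg z]

theorem frontier_spec {z : Plane} (hz : z ∈ frontier B.region) :
    z 0 ∈ Icc (-1 : ℝ) 1 ∧ bot (z 0) ≤ z 1 ∧ z 1 ≤ B.Phi (z 0) ∧
      (z 1 = B.Phi (z 0) ∨ z 1 = bot (z 0)) := by
  rw [B.region_isOpen.frontier_eq] at hz
  obtain ⟨h0, h1, h2⟩ := B.closure_region_subset hz.1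
  refine ⟨h0, h1, h2, ?_⟩
  by_contra hcon
  push Not at hcon
  have h3 : bot (z 0) < z 1 := lt_of_le_of_ne h1 (Ne.symm hcon.2)
  have h4 : z 1 < B.Phi (z 0) := lt_of_le_of_ne h2 hcon.1
  apply hz.2
  refine ⟨⟨lt_of_le_of_ne h0.1 ?_, lt_of_le_of_ne h0.2 ?_⟩, h3, h4⟩
  · intro h
    rw [← h, B.Phi_neg_one] at h4
    rw [← h] at h3
    unfold bot at h3
    linarith
  · intro h
    rw [h, B.Phi_one] at h4
    rw [h] at h3
    unfold bot at h3
    linarith

theorem dist_vertical (t a b : ℝ) : dist (!₂[t, a] : Plane) !₂[t, b] = |a - b| := by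
  rw [EuclideanSpace.dist_eq, Fin.sum_univ_two]
  simp [Real.dist_eq, Real.sqrt_sq_eq_abs]

theorem top_mem_closure {t : ℝ} (ht : t ∈ Ioo (-1 : ℝ) 1) : gr B.Phi t ∈ closure B.region := by
  rw [Metric.mem_closure_iff]
  intro ε hε
  have hgap := B.bot_lt_Phi ht
  set s := min (ε / 2) ((B.Phi t - bot t) / 2) with hs
  have hs0 : 0 < s := lt_min (by linarith) (by linarith)
  have hs1 : s ≤ ε / 2 := min_le_left _ _
  have hs2 : s ≤ (B.Phi t - bot t) / 2 := min_le_right _ _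
  refine ⟨!₂[t, B.Phi t - s], ⟨by simpa using ht, ?_, ?_⟩, ?_⟩
  · simp; linarith
  · simp; linarith
  · unfold gr
    rw [dist_vertical]
    have : B.Phi t - (B.Phi t - s) = s := by ring
    rw [this, abs_of_pos hs0]
    linarith

theorem bot_mem_closure {t : ℝ} (ht : t ∈ Ioo (-1 : ℝ) 1) : gr bot t ∈ closure B.region := by
  rw [Metric.mem_closure_iff]
  intro ε hε
  have hgap := B.bot_lt_Phi ht
  set s := min (ε / 2) ((B.Phi t - bot t) / 2) with hs
  have hs0 : 0 < s := lt_min (by linarith) (by linarith)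
  have hs1 : s ≤ ε / 2 := min_le_left _ _
  have hs2 : s ≤ (B.Phi t - bot t) / 2 := min_le_right _ _
  refine ⟨!₂[t, bot t + s], ⟨by simpa using ht, ?_, ?_⟩, ?_⟩
  · simp; linarith
  · simp; linarith
  · unfold gr
    rw [dist_vertical]
    have : bot t - (bot t + s) = -s := by ring
    rw [this, abs_neg, abs_of_pos hs0]
    linarith

theorem top_mem_frontier {t : ℝ} (ht : t ∈ Ioo (-1 : ℝ) 1) : gr B.Phi t ∈ frontier B.region := by
  rw [B.region_isOpen.frontier_eq]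
  refine ⟨B.top_mem_closure ht, ?_⟩
  rintro ⟨_, _, h⟩
  simp at h

/-- Two boundary points of a cap have close first coordinates, unless they lie in a block. -/
theorem cap_pair {θ : Plane} (hθ : ‖θ‖ = 1) {δ : ℝ} (hδ : 0 < δ) {y y' : Plane}
    (hy : y ∈ frontier B.region) (hy' : y' ∈ frontier B.region)
    (hs : ∀ z ∈ closure B.region, ⟪z, θ⟫ ≤ ⟪y, θ⟫ + δ)
    (hs' : ∀ z ∈ closure B.region, ⟪z, θ⟫ ≤ ⟪y', θ⟫ + δ) :
    (y' 0 - y 0) ^ 2 ≤ 64 * δ ∨
      ∃ i, |y' 0 - y 0| < 8 * B.ell i ∧ B.e i * (y' 0 - y 0) ^ 2 ≤ 16 * δ := by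
  obtain ⟨ha, hbot, htop, _⟩ := B.frontier_spec hy
  obtain ⟨hb, hbot', htop', _⟩ := B.frontier_spec hy'
  set a := y 0 with hadef
  set b := y' 0 with hbdef
  have hθ' : θ 0 ^ 2 + θ 1 ^ 2 = 1 := by rw [← norm_plane_sq, hθ]; norm_num
  by_cases hab : a = b
  · left
    rw [hab]
    nlinarith
  have hm : (a + b) / 2 ∈ Ioo (-1 : ℝ) 1 := by
    constructor
    · by_contra hcon
      rw [not_lt] at hcon
      apply hab
      linarith [ha.1, hb.1]
    · by_contra hcon
      rw [not_lt] at hcon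
      apply hab
      linarith [ha.2, hb.2]
  -- the distance is at most two
  have hD : |b - a| ≤ 2 := by
    rw [abs_le]
    constructor <;> linarith [ha.1, ha.2, hb.1, hb.2]
  -- steep directions
  have steep : ∀ (f : ℝ → ℝ) (K : ℝ), K ≤ 3 → |f ((a + b) / 2) - f a| ≤ K * |b - a| / 2 →
      |f ((a + b) / 2) - f b| ≤ K * |b - a| / 2 → |θ 1| < 1 / 4 →
      (a + b) / 2 * θ 0 + f ((a + b) / 2) * θ 1 ≤ a * θ 0 + f a * θ 1 + δ →
      (a + b) / 2 * θ 0 + f ((a + b) / 2) * θ 1 ≤ b * θ 0 + f b * θ 1 + δ →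
      (b - a) ^ 2 ≤ 64 * δ := by
    intro f K hK h1 h2 hθ1 h3 h4
    have hθ0 : 9 / 10 ≤ |θ 0| := by
      have h5 : θ 1 ^ 2 < 1 / 16 := by
        rw [← sq_abs]
        nlinarith [abs_nonneg (θ 1)]
      have h6 : (9 / 10) ^ 2 ≤ |θ 0| ^ 2 := by
        rw [sq_abs]
        linarith
      exact le_of_sq_le_sq h6 (abs_nonneg _)
    have hprod : ∀ c : ℝ, |c| ≤ K * |b - a| / 2 → |c * θ 1| ≤ 3 / 8 * |b - a| := by
      intro c hc
      rw [abs_mul]
      have h7 : K * |b - a| / 2 ≤ 3 * |b - a| / 2 := by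
        have := abs_nonneg (b - a)
        nlinarith
      calc |c| * |θ 1| ≤ (3 * |b - a| / 2) * (1 / 4) := by
            apply mul_le_mul (hc.trans h7) hθ1.le (abs_nonneg _) (by positivity)
        _ = _ := by ring
    have h8 := abs_le.mp (hprod _ h1)
    have h9 := abs_le.mp (hprod _ h2)
    have h10 : |(b - a) / 2 * θ 0| ≤ 3 / 8 * |b - a| + δ := by
      rw [abs_le]
      constructor <;> nlinarith [h8.1, h8.2, h9.1, h9.2]
    have h11 : |(b - a) / 2 * θ 0| = |b - a| / 2 * |θ 0| := by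
      rw [abs_mul, abs_div, abs_two]
    rw [h11] at h10
    have h12 : |b - a| / 2 * (9 / 10) ≤ |b - a| / 2 * |θ 0| := by gcongr
    have h13 : |b - a| ≤ 14 * δ := by linarith
    rw [← sq_abs]
    nlinarith [abs_nonneg (b - a)]
  rcases le_or_gt 0 (θ 1) with hpos | hneg
  · -- top side
    have h1 : (a + b) / 2 * θ 0 + B.Phi ((a + b) / 2) * θ 1 ≤ a * θ 0 + B.Phi a * θ 1 + δ := by
      have h := hs _ (B.top_mem_closure hm)
      rw [inner_plane, inner_plane, gr_zero, gr_one] at h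
      have h' : y 1 * θ 1 ≤ B.Phi a * θ 1 := by gcongr
      linarith
    have h2 : (a + b) / 2 * θ 0 + B.Phi ((a + b) / 2) * θ 1 ≤ b * θ 0 + B.Phi b * θ 1 + δ := by
      have h := hs' _ (B.top_mem_closure hm)
      rw [inner_plane, inner_plane, gr_zero, gr_one] at h
      have h' : y' 1 * θ 1 ≤ B.Phi b * θ 1 := by gcongr
      linarith
    by_cases hbig : 1 / 4 ≤ θ 1
    · have hG : B.Phi ((a + b) / 2) - (B.Phi a + B.Phi b) / 2 ≤ 4 * δ := by
        by_contra hcon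
        rw [not_le] at hcon
        nlinarith
      rcases B.gap_lemma ha hb hG with h | ⟨i, h, h'⟩
      · left; linarith
      · right; exact ⟨i, h, by linarith⟩
    · left
      rw [not_le] at hbig
      refine steep B.Phi 1 (by norm_num) ?_ ?_ (by rwa [abs_of_nonneg hpos]) h1 h2
      · refine (B.Phi_lip (Ioo_subset_Icc_self hm) ha).trans (le_of_eq ?_)
        have : (a + b) / 2 - a = (b - a) / 2 := by ring
        rw [this, abs_div, abs_two]; ring
      · refine (B.Phi_lip (Ioo_subset_Icc_self hm) hb).trans (le_of_eq ?_)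
        have : (a + b) / 2 - b = -((b - a) / 2) := by ring
        rw [this, abs_neg, abs_div, abs_two]; ring
  · -- bottom side
    left
    have h1 : (a + b) / 2 * θ 0 + bot ((a + b) / 2) * θ 1 ≤ a * θ 0 + bot a * θ 1 + δ := by
      have h := hs _ (B.bot_mem_closure hm)
      rw [inner_plane, inner_plane, gr_zero, gr_one] at h
      have h' : y 1 * θ 1 ≤ bot a * θ 1 := mul_le_mul_of_nonpos_right hbot hneg.le
      linarith
    have h2 : (a + b) / 2 * θ 0 + bot ((a + b) / 2) * θ 1 ≤ b * θ 0 + bot b * θ 1 + δ := by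
      have h := hs' _ (B.bot_mem_closure hm)
      rw [inner_plane, inner_plane, gr_zero, gr_one] at h
      have h' : y' 1 * θ 1 ≤ bot b * θ 1 := mul_le_mul_of_nonpos_right hbot' hneg.le
      linarith
    by_cases hbig : θ 1 ≤ -(1 / 4)
    · have h3 : (-θ 1) * (3 / 8 * (b - a) ^ 2) ≤ δ := by
        unfold bot at h1 h2
        nlinarith
      nlinarith [sq_nonneg (b - a)]
    · rw [not_le] at hbig
      have hlip : ∀ c ∈ Icc (-1 : ℝ) 1, |(a + b) / 2 - c| = |b - a| / 2 →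
          |bot ((a + b) / 2) - bot c| ≤ 3 * |b - a| / 2 := by
        intro c hc hcd
        have h4 : bot ((a + b) / 2) - bot c = ((a + b) / 2 - c) * (3 / 2 * ((a + b) / 2 + c)) := by
          unfold bot; ring
        rw [h4, abs_mul, hcd]
        have h5 : |3 / 2 * ((a + b) / 2 + c)| ≤ 3 := by
          rw [abs_le]
          constructor <;> linarith [hm.1, hm.2, hc.1, hc.2]
        calc |b - a| / 2 * |3 / 2 * ((a + b) / 2 + c)| ≤ |b - a| / 2 * 3 := by gcongr
          _ = _ := by ring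
      refine steep bot 3 le_rfl (hlip a ha ?_) (hlip b hb ?_) ?_ h1 h2
      · have : (a + b) / 2 - a = (b - a) / 2 := by ring
        rw [this, abs_div, abs_two]
      · have : (a + b) / 2 - b = -((b - a) / 2) := by ring
        rw [this, abs_neg, abs_div, abs_two]
      · rw [abs_of_neg hneg]; linarith

end BlockData

end Pool.Agent.Helper61.Lacunary
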