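import Mathlib
import Pool.Agent.Helper61.Lacunary.Region

/-!
# Condition `(G_p)` for the region
-/

open MeasureTheory Set
open scoped ENNReal RealInnerProductSpace

namespace Pool.Agent.Helper61.Lacunary

theorem lint_rpow {s a : ℝ} (hs : 0 < s) (ha : 0 ≤ a) :
    ∫⁻ x in Ioo 0 a, ENNReal.ofReal (x ^ (s - 1)) = ENNReal.ofReal (a ^ s / s) := by
  have hint : IntegrableOn (fun x : ℝ => x ^ (s - 1)) (Ioo 0 a) := by
    have := (intervalIntegral.intervalIntegrable_rpow' (a := 0) (b := a) (r := s - 1)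
      (by linarith)).1
    exact this.mono_set Ioo_subset_Ioc_self
  rw [← ofReal_integral_eq_lintegral_ofReal hint]
  · congr 1
    rw [← integral_Ioc_eq_integral_Ioo, ← intervalIntegral.integral_of_le ha,
      integral_rpow (Or.inl (by linarith))]
    rw [sub_add_cancel, Real.zero_rpow hs.ne', sub_zero]
  · filter_upwards [ae_restrict_mem measurableSet_Ioo] with x hx
    exact Real.rpow_nonneg hx.1.le _

theorem lint_inv {a b : ℝ} (ha : 0 < a) (hab : a ≤ b) :
    ∫⁻ x in Ico a b, ENNReal.ofReal x⁻¹ = ENNReal.ofReal (Real.log (b / a)) := by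
  have hb : 0 < b := lt_of_lt_of_le ha hab
  have hint : IntegrableOn (fun x : ℝ => x⁻¹) (Icc a b) := by
    apply ContinuousOn.integrableOn_Icc
    apply ContinuousOn.inv₀ continuousOn_id
    intro x hx
    exact (lt_of_lt_of_le ha hx.1).ne'
  rw [← ofReal_integral_eq_lintegral_ofReal (hint.mono_set Ico_subset_Icc_self)]
  · congr 1
    rw [integral_Ico_eq_integral_Ioo, ← integral_Ioc_eq_integral_Ioo,
      ← intervalIntegral.integral_of_le hab, integral_inv_of_pos ha hb]
  · filter_upwards [ae_restrict_mem measurableSet_Ico] with x hx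
    exact inv_nonneg.mpr (lt_of_lt_of_le ha hx.1).le

theorem dist_gr (f : ℝ → ℝ) (s t : ℝ) :
    dist (gr f s) (gr f t) = Real.sqrt ((s - t) ^ 2 + (f s - f t) ^ 2) := by
  rw [EuclideanSpace.dist_eq, Fin.sum_univ_two]
  simp [Real.dist_eq, sq_abs]

namespace BlockData

variable (B : BlockData)

theorem gr_Phi_lip : LipschitzOnWith 2 (gr B.Phi) (Icc (-1 : ℝ) 1) := by
  apply LipschitzOnWith.of_dist_le_mul
  intro s hs t ht
  rw [dist_gr, Real.dist_eq]
  have h := B.Phi_lip hs ht
  apply Real.sqrt_le_iff.mpr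
  refine ⟨by positivity, ?_⟩
  have h2 : (B.Phi s - B.Phi t) ^ 2 ≤ |s - t| ^ 2 := by
    rw [← sq_abs (B.Phi s - B.Phi t)]
    gcongr
  have h3 : |s - t| ^ 2 = (s - t) ^ 2 := sq_abs _
  push_cast
  nlinarith [sq_nonneg (s - t)]

theorem gr_bot_lip : LipschitzOnWith 4 (gr bot) (Icc (-1 : ℝ) 1) := by
  apply LipschitzOnWith.of_dist_le_mul
  intro s hs t ht
  rw [dist_gr, Real.dist_eq]
  have h : |bot s - bot t| ≤ 3 * |s - t| := by
    have h4 : bot s - bot t = (s - t) * (3 / 2 * (s + t)) := by unfold bot; ring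
    rw [h4, abs_mul]
    have h5 : |3 / 2 * (s + t)| ≤ 3 := by
      rw [abs_le]
      constructor <;> linarith [hs.1, hs.2, ht.1, ht.2]
    calc |s - t| * |3 / 2 * (s + t)| ≤ |s - t| * 3 := by gcongr
      _ = _ := by ring
  apply Real.sqrt_le_iff.mpr
  refine ⟨by positivity, ?_⟩
  have h2 : (bot s - bot t) ^ 2 ≤ (3 * |s - t|) ^ 2 := by
    rw [← sq_abs (bot s - bot t)]
    gcongr
  have h3 : |s - t| ^ 2 = (s - t) ^ 2 := sq_abs _
  push_cast
  nlinarith [sq_nonneg (s - t)]

/-- Majorant of the `p`-th powers of cap lengths. -/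
noncomputable def maj (p δ : ℝ) : ℝ≥0∞ :=
  ENNReal.ofReal ((64 * δ) ^ (p / 2)) +
    ∑' i, ENNReal.ofReal (min ((8 * B.ell i) ^ p) ((16 * δ / B.e i) ^ (p / 2)))

/-- Length of a set contained in the graphs of the two boundary curves. -/
theorem measure_le_proj {K : Set Plane} (hK : K ⊆ frontier B.region) :
    (μH[1] : Measure Plane) K ≤ 6 * volume ((fun y : Plane => y 0) '' K) := by
  set T := (fun y : Plane => y 0) '' K with hT
  have hTI : T ⊆ Icc (-1 : ℝ) 1 := by
    rintro _ ⟨y, hy, rfl⟩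
    exact (B.frontier_spec (hK hy)).1
  have hsub : K ⊆ gr B.Phi '' T ∪ gr bot '' T := by
    intro y hy
    rcases (B.frontier_spec (hK hy)).2.2.2 with h | h
    · left
      exact ⟨y 0, ⟨y, hy, rfl⟩, (eq_gr h).symm⟩
    · right
      exact ⟨y 0, ⟨y, hy, rfl⟩, (eq_gr h).symm⟩
  have h1 : (μH[1] : Measure Plane) (gr B.Phi '' T) ≤ 2 * volume T := by
    have h := (B.gr_Phi_lip.mono hTI).hausdorffMeasure_image_le (d := 1) zero_le_one
    rwa [ENNReal.rpow_one, hausdorffMeasure_real] at h
  have h2 : (μH[1] : Measure Plane) (gr bot '' T) ≤ 4 * volume T := by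
    have h := (gr_bot_lip.mono hTI).hausdorffMeasure_image_le (d := 1) zero_le_one
    rwa [ENNReal.rpow_one, hausdorffMeasure_real] at h
  calc (μH[1] : Measure Plane) K ≤ (μH[1] : Measure Plane) (gr B.Phi '' T ∪ gr bot '' T) :=
        measure_mono hsub
    _ ≤ (μH[1] : Measure Plane) (gr B.Phi '' T) + (μH[1] : Measure Plane) (gr bot '' T) :=
        measure_union_le _ _
    _ ≤ 2 * volume T + 4 * volume T := add_le_add h1 h2
    _ = 6 * volume T := by rw [← add_mul]; norm_num

theorem support_measure {p : ℝ} (hp : 0 < p) {θ : Plane} (hθ : ‖θ‖ = 1) {δ : ℝ} (hδ : 0 < δ)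
    {K : Set Plane} (hK : ∀ y ∈ K, y ∈ frontier B.region ∧
      ∀ z ∈ closure B.region, ⟪z, θ⟫ ≤ ⟪y, θ⟫ + δ) :
    ((μH[1] : Measure Plane) K) ^ p ≤ 6 ^ p * B.maj p δ := by
  have h1 := B.measure_le_proj (fun y hy => (hK y hy).1)
  have h2 : volume ((fun y : Plane => y 0) '' K) ≤ (B.maj p δ) ^ p⁻¹ := by
    refine (Real.volume_le_diam _).trans (Metric.ediam_le ?_)
    rintro _ ⟨y, hy, rfl⟩ _ ⟨y', hy', rfl⟩
    simp only
    rw [ENNReal.le_rpow_inv_iff hp, edist_dist, Real.dist_eq,
      ENNReal.ofReal_rpow_of_nonneg (abs_nonneg _) hp.le]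
    have hpw : |y 0 - y' 0| ^ p = ((y' 0 - y 0) ^ 2) ^ (p / 2) := by
      rw [← sq_abs (y' 0 - y 0), abs_sub_comm (y' 0), ← Real.rpow_natCast,
        ← Real.rpow_mul (abs_nonneg _)]
      congr 1
      push_cast
      ring
    rcases B.cap_pair hθ hδ (hK y hy).1 (hK y' hy').1 (hK y hy).2 (hK y' hy').2 with h | ⟨i, h, h'⟩
    · unfold maj
      refine le_trans ?_ le_self_add
      apply ENNReal.ofReal_le_ofReal
      rw [hpw]
      gcongr
    · unfold maj
      refine le_trans ?_ le_add_self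
      refine le_trans ?_ (ENNReal.le_tsum i)
      apply ENNReal.ofReal_le_ofReal
      apply le_min
      · rw [abs_sub_comm]
        gcongr
      · rw [hpw]
        have he := B.he i
        have : (y' 0 - y 0) ^ 2 ≤ 16 * δ / B.e i := by
          rw [le_div_iff₀ he]
          linarith
        gcongr
  calc ((μH[1] : Measure Plane) K) ^ p ≤ (6 * (B.maj p δ) ^ p⁻¹) ^ p := by
        gcongr
        exact h1.trans (by gcongr)
    _ = 6 ^ p * B.maj p δ := by
        rw [ENNReal.mul_rpow_of_nonneg _ _ hp.le, ← ENNReal.rpow_mul, inv_mul_cancel₀ hp.ne',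
          ENNReal.rpow_one]

theorem capLength_le {p : ℝ} (hp : 0 < p) {θ : Plane} (hθ : ‖θ‖ = 1) {δ : ℝ} (hδ : 0 < δ) :
    capLength B.region θ δ ^ p ≤ 6 ^ p * B.maj p δ := by
  have h1 : (arclength B.region (capPlus B.region θ δ)) ^ p ≤ 6 ^ p * B.maj p δ := by
    refine le_trans (ENNReal.rpow_le_rpow (Measure.restrict_apply_le _ _) hp.le)
      (B.support_measure hp hθ hδ ?_)
    intro y hy
    exact ⟨hy.1, capPlus_spec B.region_isBounded hθ hy⟩
  have h2 : (arclength B.region (capMinus B.region θ δ)) ^ p ≤ 6 ^ p * B.maj p δ := by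
    refine le_trans (ENNReal.rpow_le_rpow (Measure.restrict_apply_le _ _) hp.le)
      (B.support_measure hp (θ := -θ) (by rw [norm_neg, hθ]) hδ ?_)
    intro y hy
    exact ⟨hy.1, capMinus_spec B.region_isBounded hθ hy⟩
  unfold capLength
  rcases max_cases (arclength B.region (capPlus B.region θ δ))
    (arclength B.region (capMinus B.region θ δ)) with h | h
  · rw [h.1]; exact h1
  · rw [h.1]; exact h2

/-- The `i`-th term of the majorant has a small integral. -/
theorem term_integral {p : ℝ} (hp : 0 < p) (i : ℕ) {κ : ℕ}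
    (hκ : (1 / 2 : ℝ) ^ κ ≤ B.e i * B.ell i ^ 2)
    {δ₀ : ℝ} (hδ₀ : 0 < δ₀) :
    ∫⁻ δ in Ioo 0 δ₀, ENNReal.ofReal (min ((8 * B.ell i) ^ p) ((16 * δ / B.e i) ^ (p / 2))) *
      ENNReal.ofReal δ⁻¹ ≤
      ENNReal.ofReal ((8 * B.ell i) ^ p * (2 / p + |Real.log δ₀| + κ)) := by
  have he := B.he i
  have hl := B.ell_pos i
  set D := B.e i * B.ell i ^ 2 with hD
  have hDpos : 0 < D := by positivity
  have hsub : Ioo 0 δ₀ ⊆ Ioo 0 D ∪ Ico D (max D δ₀) := by
    rintro x ⟨h1, h2⟩
    rcases lt_or_ge x D with h | h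
    · left; exact ⟨h1, h⟩
    · right; exact ⟨h, lt_of_lt_of_le h2 (le_max_right _ _)⟩
  refine (lintegral_mono_set hsub).trans ((lintegral_union_le _ _ _).trans ?_)
  have h1 : ∫⁻ δ in Ioo 0 D, ENNReal.ofReal (min ((8 * B.ell i) ^ p)
      ((16 * δ / B.e i) ^ (p / 2))) * ENNReal.ofReal δ⁻¹ ≤
      ENNReal.ofReal ((8 * B.ell i) ^ p * (2 / p)) := by
    calc _ ≤ ∫⁻ δ in Ioo 0 D, ENNReal.ofReal ((16 / B.e i) ^ (p / 2)) *
          ENNReal.ofReal (δ ^ (p / 2 - 1)) := by
          apply setLIntegral_mono' measurableSet_Ioo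
          intro x hx
          have hx1 : 0 < x := hx.1
          have hmin : 0 ≤ min ((8 * B.ell i) ^ p) ((16 * x / B.e i) ^ (p / 2)) := by
            apply le_min <;> positivity
          have hc : 0 ≤ (16 / B.e i) ^ (p / 2) := by positivity
          rw [← ENNReal.ofReal_mul hmin, ← ENNReal.ofReal_mul hc]
          · apply ENNReal.ofReal_le_ofReal
            calc min ((8 * B.ell i) ^ p) ((16 * x / B.e i) ^ (p / 2)) * x⁻¹ ≤
                (16 * x / B.e i) ^ (p / 2) * x⁻¹ := by
                  gcongr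
                  exact min_le_right _ _
              _ = (16 / B.e i) ^ (p / 2) * x ^ (p / 2 - 1) := by
                  rw [Real.rpow_sub_one hx1.ne', show 16 * x / B.e i = 16 / B.e i * x by ring,
                    Real.mul_rpow (by positivity) hx1.le]
                  field_simp
      _ = ENNReal.ofReal ((16 / B.e i) ^ (p / 2)) * ENNReal.ofReal (D ^ (p / 2) / (p / 2)) := by
          rw [lintegral_const_mul' _ _ ENNReal.ofReal_ne_top, lint_rpow (by positivity) hDpos.le]
      _ ≤ ENNReal.ofReal ((8 * B.ell i) ^ p * (2 / p)) := by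
          rw [← ENNReal.ofReal_mul (by positivity)]
          apply ENNReal.ofReal_le_ofReal
          have h3 : (16 / B.e i) ^ (p / 2) * D ^ (p / 2) = (4 * B.ell i) ^ p := by
            rw [← Real.mul_rpow (by positivity) hDpos.le]
            have h4 : 16 / B.e i * D = (4 * B.ell i) ^ 2 := by
              rw [hD]; field_simp; ring
            rw [h4, ← Real.rpow_natCast, ← Real.rpow_mul (by positivity)]
            congr 1
            push_cast
            ring
          have h5 : (4 * B.ell i) ^ p ≤ (8 * B.ell i) ^ p := by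
            gcongr
            norm_num
          calc (16 / B.e i) ^ (p / 2) * (D ^ (p / 2) / (p / 2)) =
                ((16 / B.e i) ^ (p / 2) * D ^ (p / 2)) * (2 / p) := by
                field_simp
            _ = (4 * B.ell i) ^ p * (2 / p) := by rw [h3]
            _ ≤ _ := by gcongr
  have h2 : ∫⁻ δ in Ico D (max D δ₀), ENNReal.ofReal (min ((8 * B.ell i) ^ p)
      ((16 * δ / B.e i) ^ (p / 2))) * ENNReal.ofReal δ⁻¹ ≤
      ENNReal.ofReal ((8 * B.ell i) ^ p * (|Real.log δ₀| + κ)) := by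
    calc _ ≤ ∫⁻ δ in Ico D (max D δ₀), ENNReal.ofReal ((8 * B.ell i) ^ p) *
          ENNReal.ofReal δ⁻¹ := by
          apply setLIntegral_mono' measurableSet_Ico
          intro x hx
          gcongr
          exact min_le_left _ _
      _ = ENNReal.ofReal ((8 * B.ell i) ^ p) * ENNReal.ofReal (Real.log (max D δ₀ / D)) := by
          rw [lintegral_const_mul' _ _ ENNReal.ofReal_ne_top, lint_inv hDpos (le_max_left _ _)]
      _ ≤ ENNReal.ofReal ((8 * B.ell i) ^ p * (|Real.log δ₀| + κ)) := by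
          rw [← ENNReal.ofReal_mul (by positivity)]
          apply ENNReal.ofReal_le_ofReal
          gcongr
          rcases le_total D δ₀ with h | h
          · rw [max_eq_right h, Real.log_div hδ₀.ne' hDpos.ne']
            have h6 : -Real.log D ≤ κ := by
              have h7 : Real.log ((1 / 2 : ℝ) ^ κ) ≤ Real.log D :=
                Real.log_le_log (by positivity) hκ
              rw [Real.log_pow, Real.log_div one_ne_zero two_ne_zero, Real.log_one] at h7
              have h8 : Real.log 2 ≤ 1 := by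
                have := Real.log_two_lt_d9
                linarith
              have h9 : (κ : ℝ) * Real.log 2 ≤ κ * 1 := by gcongr
              linarith
            have h10 := le_abs_self (Real.log δ₀)
            linarith
          · rw [max_eq_left h, div_self hDpos.ne', Real.log_one]
            positivity
  refine (add_le_add h1 h2).trans (le_of_eq ?_)
  rw [← ENNReal.ofReal_add (by positivity) (by positivity)]
  congr 1
  ring

/-- Condition `(G_p)`, bound for the integrals. -/
theorem capIntegral_le {p : ℝ} (hp : 0 < p) (κ : ℕ → ℕ)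
    (hκ : ∀ i, (1 / 2 : ℝ) ^ κ i ≤ B.e i * B.ell i ^ 2)
    (hκ' : ∀ i, (8 * B.ell i) ^ p * (κ i + 1) ≤ (1 / 2) ^ i)
    {δ₀ : ℝ} (hδ₀ : 0 < δ₀) :
    ∃ A : ℝ, ∀ θ : Plane, ‖θ‖ = 1 → capIntegral B.region p δ₀ θ ≤ ENNReal.ofReal A := by
  set C : ℝ := 2 / p + |Real.log δ₀| + 1 with hC
  have hC1 : 1 ≤ C := by
    have : 0 ≤ 2 / p := by positivity
    have := abs_nonneg (Real.log δ₀)
    rw [hC]; linarith
  -- the integral of the majorant is finite
  have hmaj : ∫⁻ δ in Ioo 0 δ₀, B.maj p δ * ENNReal.ofReal δ⁻¹ < ⊤ := by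
    unfold maj
    have hmeasure : ∀ i, Measurable (fun δ : ℝ => ENNReal.ofReal (min ((8 * B.ell i) ^ p)
        ((16 * δ / B.e i) ^ (p / 2))) * ENNReal.ofReal δ⁻¹) := by
      intro i
      fun_prop
    calc ∫⁻ δ in Ioo 0 δ₀, (ENNReal.ofReal ((64 * δ) ^ (p / 2)) +
          ∑' i, ENNReal.ofReal (min ((8 * B.ell i) ^ p) ((16 * δ / B.e i) ^ (p / 2)))) *
          ENNReal.ofReal δ⁻¹
        = ∫⁻ δ in Ioo 0 δ₀, (ENNReal.ofReal ((64 * δ) ^ (p / 2)) * ENNReal.ofReal δ⁻¹ +
          ∑' i, ENNReal.ofReal (min ((8 * B.ell i) ^ p) ((16 * δ / B.e i) ^ (p / 2))) *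
          ENNReal.ofReal δ⁻¹) := by
          congr 1
          ext δ
          rw [add_mul, ENNReal.tsum_mul_right]
      _ = (∫⁻ δ in Ioo 0 δ₀, ENNReal.ofReal ((64 * δ) ^ (p / 2)) * ENNReal.ofReal δ⁻¹) +
          ∑' i, ∫⁻ δ in Ioo 0 δ₀, ENNReal.ofReal (min ((8 * B.ell i) ^ p)
            ((16 * δ / B.e i) ^ (p / 2))) * ENNReal.ofReal δ⁻¹ := by
          rw [lintegral_add_left (by fun_prop), lintegral_tsum (fun i => (hmeasure i).aemeasurable)]
      _ ≤ ENNReal.ofReal (64 ^ (p / 2)) * ENNReal.ofReal (δ₀ ^ (p / 2) / (p / 2)) +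
          ∑' i, ENNReal.ofReal (C * (1 / 2) ^ i) := by
          apply add_le_add
          · rw [← lint_rpow (by positivity) hδ₀.le, ← lintegral_const_mul' _ _ ENNReal.ofReal_ne_top]
            apply setLIntegral_mono' measurableSet_Ioo
            intro x hx
            have hx1 := hx.1
            rw [← ENNReal.ofReal_mul (by positivity), ← ENNReal.ofReal_mul (by positivity)]
            apply ENNReal.ofReal_le_ofReal
            apply le_of_eq
            rw [Real.rpow_sub_one hx1.ne', Real.mul_rpow (by positivity) hx1.le]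
            field_simp
          · apply ENNReal.tsum_le_tsum
            intro i
            refine (B.term_integral hp i (hκ i) hδ₀).trans (ENNReal.ofReal_le_ofReal ?_)
            have h1 := hκ' i
            have h2 : 0 ≤ (8 * B.ell i) ^ p := by
              have := B.ell_pos i
              positivity
            have h3 : 2 / p + |Real.log δ₀| + κ i ≤ C * (κ i + 1) := by
              have h4 : (0 : ℝ) ≤ κ i := Nat.cast_nonneg _
              have h5 : 0 ≤ 2 / p + |Real.log δ₀| := by positivity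
              rw [hC]
              nlinarith
            calc (8 * B.ell i) ^ p * (2 / p + |Real.log δ₀| + κ i)
                ≤ (8 * B.ell i) ^ p * (C * (κ i + 1)) := by gcongr
              _ = C * ((8 * B.ell i) ^ p * (κ i + 1)) := by ring
              _ ≤ C * (1 / 2) ^ i := by gcongr
      _ < ⊤ := by
          apply ENNReal.add_lt_top.mpr
          refine ⟨ENNReal.mul_lt_top ENNReal.ofReal_lt_top ENNReal.ofReal_lt_top, ?_⟩
          have hsum : Summable (fun i : ℕ => C * (1 / 2 : ℝ) ^ i) :=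
            (summable_geometric_of_lt_one (by norm_num) (by norm_num)).mul_left C
          rw [← ENNReal.ofReal_tsum_of_nonneg (fun i => by positivity) hsum]
          exact ENNReal.ofReal_lt_top
  set I := ∫⁻ δ in Ioo 0 δ₀, B.maj p δ * ENNReal.ofReal δ⁻¹ with hI
  have h6 : (6 : ℝ≥0∞) ^ p * I ≠ ⊤ :=
    ENNReal.mul_ne_top (ENNReal.rpow_ne_top_of_nonneg hp.le (by norm_num)) hmaj.ne
  refine ⟨(6 ^ p * I).toReal, fun θ hθ => ?_⟩
  rw [ENNReal.ofReal_toReal h6]
  unfold capIntegral
  calc ∫⁻ δ in Ioo 0 δ₀, capLength B.region θ δ ^ p * ENNReal.ofReal δ⁻¹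
      ≤ ∫⁻ δ in Ioo 0 δ₀, 6 ^ p * (B.maj p δ * ENNReal.ofReal δ⁻¹) := by
        apply setLIntegral_mono' measurableSet_Ioo
        intro x hx
        rw [← mul_assoc]
        gcongr
        exact B.capLength_le hp hθ hx.1
    _ = 6 ^ p * I := by
        rw [lintegral_const_mul' _ _ (ENNReal.rpow_ne_top_of_nonneg hp.le (by norm_num))]

/-- The two caps of small width are disjoint. -/
theorem exists_admissible : ∃ δ₀, Admissible B.region δ₀ := by
  -- a ball around the origin inside the region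
  obtain ⟨r, hr, hball⟩ := Metric.isOpen_iff.mp B.region_isOpen 0 B.region_zero_mem
  refine ⟨r / 2, by linarith, ?_⟩
  intro θ hθ δ hδ hδr
  rw [Set.disjoint_left]
  intro y hy1 hy2
  have h1 := capPlus_spec B.region_isBounded hθ hy1
  have h2 := capMinus_spec B.region_isBounded hθ hy2
  have hz : (r / 2) • θ ∈ closure B.region := by
    apply subset_closure
    apply hball
    rw [mem_ball_zero_iff, norm_smul, hθ, mul_one, Real.norm_eq_abs, abs_of_pos (by linarith)]
    linarith
  have hz' : (-(r / 2)) • θ ∈ closure B.region := by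
    apply subset_closure
    apply hball
    rw [mem_ball_zero_iff, norm_smul, hθ, mul_one, norm_neg, Real.norm_eq_abs,
      abs_of_pos (by linarith)]
    linarith
  have h3 := h1 _ hz
  have h4 := h2 _ hz'
  rw [real_inner_smul_left, real_inner_self_eq_norm_sq, hθ] at h3
  rw [inner_neg_right, inner_neg_right, real_inner_smul_left, real_inner_self_eq_norm_sq, hθ] at h4
  linarith

theorem conditionG {p : ℝ} (hp : 0 < p) (κ : ℕ → ℕ)
    (hκ : ∀ i, (1 / 2 : ℝ) ^ κ i ≤ B.e i * B.ell i ^ 2)
    (hκ' : ∀ i, (8 * B.ell i) ^ p * (κ i + 1) ≤ (1 / 2) ^ i) :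
    ConditionG B.region p :=
  ⟨B.exists_admissible, fun _ hδ => B.capIntegral_le hp κ hκ hκ' hδ.1⟩

end BlockData

end Pool.Agent.Helper61.Lacunary
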