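import Mathlib
import Pool.Agent.Helper61.Lacunary.CapBound

/-!
# Lower bounds for the maximal function; prescribing binary digits
-/

open MeasureTheory Set
open scoped ENNReal RealInnerProductSpace

namespace Pool.Agent.Helper61.Lacunary

namespace BlockData

variable (B : BlockData)

theorem arclength_finite : IsFiniteMeasure (arclength B.region) := by
  constructor
  unfold arclength
  rw [Measure.restrict_apply_univ]
  refine (B.measure_le_proj le_rfl).trans_lt ?_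
  apply ENNReal.mul_lt_top (by norm_num)
  refine lt_of_le_of_lt (measure_mono (t := Icc (-1 : ℝ) 1) ?_) (by simp)
  rintro _ ⟨y, hy, rfl⟩
  exact (B.frontier_spec hy).1

/-- The maximal function of an indicator is at least the measure of any set of parameters whose
dilated boundary points land in the set. -/
theorem le_lacMax {S : Set Plane} (hS : MeasurableSet S) {V : Set ℝ} (hV : V ⊆ Ioo (-1 : ℝ) 1)
    (x : Plane) (k : ℕ) (h : ∀ t ∈ V, x - (2 : ℝ) ^ k • gr B.Phi t ∈ S) :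
    volume V ≤ lacMax B.region (S.indicator 1) x := by
  have := B.arclength_finite
  have hg : Measurable (fun y : Plane => x - (2 : ℝ) ^ (k : ℤ) • y) := by fun_prop
  have havg : avg B.region k (S.indicator 1) x =
      (arclength B.region).real ((fun y : Plane => x - (2 : ℝ) ^ (k : ℤ) • y) ⁻¹' S) := by
    unfold avg
    rw [← integral_indicator_one (hg hS)]
    rfl
  have h1 : ENNReal.ofReal |avg B.region k (S.indicator 1) x| =
      arclength B.region ((fun y : Plane => x - (2 : ℝ) ^ (k : ℤ) • y) ⁻¹' S) := by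
    rw [havg, abs_of_nonneg measureReal_nonneg, ofReal_measureReal]
  have h2 : volume V ≤ (μH[1] : Measure Plane) (gr B.Phi '' V) := by
    have hlip : LipschitzWith 1 (fun z : Plane => z 0) := by
      apply LipschitzWith.of_dist_le_mul
      intro z w
      rw [NNReal.coe_one, one_mul, Real.dist_eq, EuclideanSpace.dist_eq, Fin.sum_univ_two]
      apply Real.le_sqrt_of_sq_le
      rw [Real.dist_eq, Real.dist_eq]
      nlinarith [sq_nonneg |z 1 - w 1|]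
    have h3 := hlip.hausdorffMeasure_image_le (d := 1) zero_le_one (gr B.Phi '' V)
    rw [← image_comp, hausdorffMeasure_real] at h3
    have h4 : ((fun z : Plane => z 0) ∘ gr B.Phi) '' V = V := by
      have : ((fun z : Plane => z 0) ∘ gr B.Phi) = id := by
        ext t; simp
      rw [this, image_id]
    rw [h4] at h3
    simpa using h3
  calc volume V ≤ (μH[1] : Measure Plane) (gr B.Phi '' V) := h2
    _ ≤ arclength B.region ((fun y : Plane => x - (2 : ℝ) ^ (k : ℤ) • y) ⁻¹' S) := by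
        unfold arclength
        rw [Measure.restrict_apply (hg hS)]
        apply measure_mono
        rintro _ ⟨t, ht, rfl⟩
        refine ⟨?_, B.top_mem_frontier (hV ht)⟩
        have := h t ht
        simpa using this
    _ = ENNReal.ofReal |avg B.region k (S.indicator 1) x| := h1.symm
    _ ≤ _ := le_iSup (fun k : ℤ => ENNReal.ofReal |avg B.region k (S.indicator 1) x|) (k : ℤ)

end BlockData

/-- Prescribing the binary digits of a small lift. -/
theorem digits {b : ℕ} (hb : 1 ≤ b) : ∀ (I k0 : ℕ) (c : ℝ) (τ : ℕ → ℝ),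
    ∃ w : ℝ, 0 ≤ w ∧ w ≤ 2 * (1 / 2) ^ k0 ∧ ∀ m < I,
      ‖((2 ^ (k0 + b * m) * (c + w) - τ m : ℝ) : AddCircle (1 : ℝ))‖ ≤ 2 * (1 / 2) ^ b := by
  intro I
  induction I with
  | zero =>
    intro k0 c τ
    exact ⟨0, le_rfl, by positivity, fun m hm => absurd hm (Nat.not_lt_zero _)⟩
  | succ I ih =>
    intro k0 c τ
    set d : ℝ := Int.fract (τ 0 - 2 ^ k0 * c) * (1 / 2) ^ k0 with hd
    have hd0 : 0 ≤ d := mul_nonneg (Int.fract_nonneg _) (by positivity)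
    have hd1 : d ≤ (1 / 2) ^ k0 := by
      rw [hd]
      have := (Int.fract_lt_one (τ 0 - 2 ^ k0 * c)).le
      calc _ ≤ 1 * (1 / 2 : ℝ) ^ k0 := by gcongr
        _ = _ := one_mul _
    obtain ⟨w, hw0, hw1, hw⟩ := ih (k0 + b) (c + d) (fun m => τ (m + 1))
    have hpow : (2 : ℝ) ^ k0 * (1 / 2) ^ k0 = 1 := by rw [← mul_pow]; norm_num
    have hhalf : (1 / 2 : ℝ) ^ b ≤ 1 / 2 := by
      calc (1 / 2 : ℝ) ^ b ≤ (1 / 2) ^ 1 := pow_le_pow_of_le_one (by norm_num) (by norm_num) hb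
        _ = 1 / 2 := by norm_num
    refine ⟨d + w, by linarith, ?_, ?_⟩
    · have h1 : (1 / 2 : ℝ) ^ (k0 + b) ≤ (1 / 2) ^ k0 * (1 / 2) := by
        rw [pow_add]
        gcongr
      linarith
    · intro m hm
      rcases m with _ | m
      · rw [mul_zero, add_zero]
        apply norm_le_of_near (-⌊τ 0 - 2 ^ k0 * c⌋)
        have h2 : (2 : ℝ) ^ k0 * (c + (d + w)) - τ 0 - ((-⌊τ 0 - 2 ^ k0 * c⌋ : ℤ) : ℝ) * 1 =
            2 ^ k0 * w := by
          have h3 : (2 : ℝ) ^ k0 * d = Int.fract (τ 0 - 2 ^ k0 * c) := by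
            rw [hd]
            calc (2 : ℝ) ^ k0 * (Int.fract (τ 0 - 2 ^ k0 * c) * (1 / 2) ^ k0) =
                Int.fract (τ 0 - 2 ^ k0 * c) * ((2 : ℝ) ^ k0 * (1 / 2) ^ k0) := by ring
              _ = _ := by rw [hpow, mul_one]
          have h4 := Int.floor_add_fract (τ 0 - 2 ^ k0 * c)
          push_cast
          linear_combination h3 + h4
        rw [h2, abs_of_nonneg (by positivity)]
        calc (2 : ℝ) ^ k0 * w ≤ 2 ^ k0 * (2 * (1 / 2) ^ (k0 + b)) := by gcongr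
          _ = (2 ^ k0 * (1 / 2) ^ k0) * (2 * (1 / 2) ^ b) := by rw [pow_add]; ring
          _ = 2 * (1 / 2) ^ b := by rw [hpow, one_mul]
      · have h5 := hw m (by omega)
        have h6 : k0 + b * (m + 1) = k0 + b + b * m := by ring
        rw [h6, ← add_assoc]
        exact h5

/-- Side length for the exponent `L`, node `j` of block `i`. -/
noncomputable def nd (i L j : ℕ) : ℝ := blockLeft i + j * (1 / 2) ^ L

/-- The property of one block that makes the maximal function large: there are a test set `S` and a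
set `Q` on which the maximal function of the indicator of `S` is at least `lam`. -/
def BlockGood (p : ℝ) (i : ℕ) (C : ℝ) (L : ℕ) (e : ℝ) (w : ℕ → ℝ) : Prop :=
  ∃ S : Set Plane, MeasurableSet S ∧ ∃ b : ℝ, 0 < b ∧ volume S ≤ ENNReal.ofReal b ∧
    ∃ Q : Set Plane, MeasurableSet Q ∧ ∃ lam : ℝ, 0 < lam ∧
      ENNReal.ofReal (C * b) ≤ ENNReal.ofReal (lam ^ p) * volume Q ∧
      ∀ f : ℝ → ℝ, (∀ j t, 1 ≤ j → j + 1 ≤ 2 ^ (L - (i + 2)) →
          |t - nd i L j| ≤ (1 / 2) ^ L / 4 → f t = BlockData.par (nd i L j, e, w j) t) →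
        (∀ t ∈ Icc (-1 : ℝ) 1, |f t| ≤ 3) →
        ∀ x ∈ Q, ∃ k : ℕ, ∃ V : Set ℝ, V ⊆ Ioo (-1 : ℝ) 1 ∧ ENNReal.ofReal lam ≤ volume V ∧
          ∀ t ∈ V, x - (2 : ℝ) ^ k • gr f t ∈ S

/-- The node positions are in the unit interval. -/
theorem nd_mem {i L j : ℕ} (hL : i + 5 ≤ L) (hj1 : 1 ≤ j) (hj2 : j + 1 ≤ 2 ^ (L - (i + 2))) {t : ℝ}
    (ht : |t - nd i L j| ≤ (1 / 2) ^ L / 4) : t ∈ Ioo (-1 : ℝ) 1 := by
  have h1 : ((2 : ℝ) ^ (L - (i + 2))) * (1 / 2) ^ L = (1 / 2) ^ (i + 2) := by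
    obtain ⟨k, rfl⟩ : ∃ k, L = (i + 2) + k := ⟨L - (i + 2), by omega⟩
    rw [Nat.add_sub_cancel_left, pow_add (1 / 2 : ℝ) (i + 2) k]
    have : (2 : ℝ) ^ k * (1 / 2) ^ k = 1 := by rw [← mul_pow]; norm_num
    calc (2 : ℝ) ^ k * ((1 / 2) ^ (i + 2) * (1 / 2) ^ k) =
        (1 / 2) ^ (i + 2) * ((2 : ℝ) ^ k * (1 / 2) ^ k) := by ring
      _ = _ := by rw [this, mul_one]
  have h2 : ((j : ℝ) + 1) ≤ 2 ^ (L - (i + 2)) := by exact_mod_cast hj2
  have h3 : ((j : ℝ) + 1) * (1 / 2) ^ L ≤ (1 / 2) ^ (i + 2) := by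
    rw [← h1]; gcongr
  have h4 : (1 / 2 : ℝ) ^ (i + 1) ≤ 1 / 2 := by
    calc (1 / 2 : ℝ) ^ (i + 1) ≤ (1 / 2) ^ 1 :=
          pow_le_pow_of_le_one (by norm_num) (by norm_num) (by omega)
      _ = 1 / 2 := by norm_num
  have h5 : (1 / 2 : ℝ) ^ (i + 2) ≤ 1 / 4 := by
    calc (1 / 2 : ℝ) ^ (i + 2) ≤ (1 / 2) ^ 2 :=
          pow_le_pow_of_le_one (by norm_num) (by norm_num) (by omega)
      _ = 1 / 4 := by norm_num
  have h6 : (0 : ℝ) < (1 / 2) ^ (i + 1) := by positivity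
  have h7 : (0 : ℝ) < (1 / 2) ^ L := by positivity
  have h8 : (0 : ℝ) ≤ j * (1 / 2) ^ L := by positivity
  unfold nd blockLeft at ht
  rw [abs_le] at ht
  constructor <;> nlinarith [ht.1, ht.2]

/-- Effect of a dilate on the strip coordinate. -/
theorem plateau_shift {i L j b I m : ℕ} {w τ : ℝ} (hm : m < I)
    (hw : ‖((2 ^ ((2 * L + 8) + b * m) * ((1 + nd i L j ^ 2 / 2) + w) - τ : ℝ) :
      AddCircle (1 : ℝ))‖ ≤ 2 * (1 / 2) ^ b)
    {f : ℝ → ℝ} {t : ℝ} (ht : |t - nd i L j| ≤ (1 / 2) ^ L / 4)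
    (hf : f t = BlockData.par (nd i L j, (1 / 2) ^ (2 * L + 8 + b * I + b), w) t) (x : Plane) :
    ‖(((x - (2 : ℝ) ^ ((2 * L + 8) + b * m) • gr f t) 1 +
        nd i L j * (x - (2 : ℝ) ^ ((2 * L + 8) + b * m) • gr f t) 0 -
        (x 1 + nd i L j * x 0 - τ) : ℝ) : AddCircle (1 : ℝ))‖ ≤ 3 * (1 / 2) ^ b := by
  set a := nd i L j with ha
  set k := (2 * L + 8) + b * m with hk
  set e : ℝ := (1 / 2) ^ (2 * L + 8 + b * I + b) with he
  have h1 : ((x - (2 : ℝ) ^ k • gr f t) 1 + a * (x - (2 : ℝ) ^ k • gr f t) 0 -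
      (x 1 + a * x 0 - τ) : ℝ) =
      -(2 ^ k * ((1 + a ^ 2 / 2) + w) - τ) + 2 ^ k * (e * (t - a) ^ 2) := by
    simp only [PiLp.sub_apply, PiLp.smul_apply, gr_zero, gr_one, smul_eq_mul]
    rw [hf]
    unfold BlockData.par
    simp only
    ring
  rw [h1, AddCircle.coe_add, AddCircle.coe_neg]
  refine (norm_add_le _ _).trans ?_
  rw [norm_neg]
  have h2 : ‖((2 ^ k * (e * (t - a) ^ 2) : ℝ) : AddCircle (1 : ℝ))‖ ≤ (1 / 2) ^ b := by
    apply norm_le_of_near 0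
    have h3 : |t - a| ≤ 1 := by
      refine ht.trans ?_
      have : (1 / 2 : ℝ) ^ L ≤ 1 := pow_le_one₀ (by norm_num) (by norm_num)
      linarith
    have h4 : (t - a) ^ 2 ≤ 1 := by
      rw [← sq_abs]
      nlinarith [abs_nonneg (t - a)]
    rw [Int.cast_zero, zero_mul, sub_zero, abs_of_nonneg (by positivity)]
    have h5 : (2 : ℝ) ^ k * e ≤ (1 / 2) ^ b := by
      have h6 : (1 / 2 : ℝ) ^ (2 * L + 8 + b * I + b) ≤ (1 / 2) ^ (k + b) := by
        apply pow_le_pow_of_le_one (by norm_num) (by norm_num)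
        have : b * m ≤ b * I := Nat.mul_le_mul_left b hm.le
        omega
      have h7 : (2 : ℝ) ^ k * (1 / 2) ^ k = 1 := by rw [← mul_pow]; norm_num
      calc (2 : ℝ) ^ k * e ≤ 2 ^ k * (1 / 2) ^ (k + b) := by rw [he]; gcongr
        _ = (2 ^ k * (1 / 2) ^ k) * (1 / 2) ^ b := by rw [pow_add]; ring
        _ = _ := by rw [h7, one_mul]
    have he0 : 0 ≤ e := by positivity
    calc (2 : ℝ) ^ k * (e * (t - a) ^ 2) ≤ 2 ^ k * (e * 1) := by gcongr
      _ = 2 ^ k * e := by ring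
      _ ≤ _ := h5
  linarith

/-- The dilated point stays in a box. -/
theorem box_shift {K k : ℕ} (hk : k + 3 ≤ K) {f : ℝ → ℝ} {t : ℝ} (ht : t ∈ Ioo (-1 : ℝ) 1)
    (hf : |f t| ≤ 3) {x : Plane} (hx0 : x 0 ∈ Ioc (-(2 ^ K : ℝ)) (2 ^ K))
    (hx1 : x 1 ∈ Ioc (-(2 ^ K : ℝ)) (2 ^ K)) :
    (x - (2 : ℝ) ^ k • gr f t) 0 ∈ Ioc (-((2 ^ (K + 1) : ℕ) : ℝ)) ((2 ^ (K + 1) : ℕ) : ℝ) ∧
    (x - (2 : ℝ) ^ k • gr f t) 1 ∈ Ioc (-((2 ^ (K + 1) : ℕ) : ℝ)) ((2 ^ (K + 1) : ℕ) : ℝ) := by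
  have h1 : (2 : ℝ) ^ k * 8 ≤ 2 ^ K := by
    calc (2 : ℝ) ^ k * 8 = 2 ^ (k + 3) := by rw [pow_add]; norm_num
      _ ≤ 2 ^ K := pow_le_pow_right₀ (by norm_num) hk
  have h2 : (0 : ℝ) < 2 ^ k := by positivity
  rw [abs_le] at hf
  simp only [PiLp.sub_apply, PiLp.smul_apply, gr_zero, gr_one, smul_eq_mul]
  push_cast
  rw [pow_succ]
  refine ⟨⟨?_, ?_⟩, ⟨?_, ?_⟩⟩
  · nlinarith [hx0.1, ht.2]
  · nlinarith [hx0.2, ht.1]
  · nlinarith [hx1.1, hf.2]
  · nlinarith [hx1.2, hf.1]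

end Pool.Agent.Helper61.Lacunary
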