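import Mathlib
import Pool.Agent.Helper61.Lacunary.Lower

/-!
# Large exponents: unions of lattice strips
-/

open MeasureTheory Set
open scoped ENNReal

namespace Pool.Agent.Helper61.Lacunary

theorem measurableSet_strip (R a η : ℝ) :
    MeasurableSet {z : Plane | z 0 ∈ Ioc (-R) R ∧ z 1 ∈ Ioc (-R) R ∧
      ‖((z 1 + a * z 0 : ℝ) : AddCircle (1 : ℝ))‖ ≤ η} := by
  have h0 : Continuous (fun z : Plane => z 0) := by fun_prop
  have h1 : Continuous (fun z : Plane => z 1) := by fun_prop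
  apply (h0.measurable measurableSet_Ioc).inter
  apply (h1.measurable measurableSet_Ioc).inter
  have hc : Continuous (fun z : Plane => ‖((z 1 + a * z 0 : ℝ) : AddCircle (1 : ℝ))‖) :=
    continuous_norm.comp ((AddCircle.continuous_mk' 1).comp
      (h1.add (continuous_const.mul h0)))
  exact (isClosed_le hc (continuous_const (y := η))).measurableSet

theorem measurableSet_box (R : ℝ) :
    MeasurableSet {z : Plane | z 0 ∈ Ioc (-R) R ∧ z 1 ∈ Ioc (-R) R} := by
  have h0 : Continuous (fun z : Plane => z 0) := by fun_prop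
  have h1 : Continuous (fun z : Plane => z 1) := by fun_prop
  exact (h0.measurable measurableSet_Ioc).inter (h1.measurable measurableSet_Ioc)

theorem volume_box (R : ℝ) (hR : 0 ≤ R) :
    volume {z : Plane | z 0 ∈ Ioc (-R) R ∧ z 1 ∈ Ioc (-R) R} = ENNReal.ofReal (4 * R ^ 2) := by
  have h := volume_plane (E := Ioc (-R) R ×ˢ Ioc (-R) R) (measurableSet_Ioc.prod measurableSet_Ioc)
  have heq : {z : Plane | z 0 ∈ Ioc (-R) R ∧ z 1 ∈ Ioc (-R) R} =
      {z : Plane | (z 0, z 1) ∈ Ioc (-R) R ×ˢ Ioc (-R) R} := by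
    ext z; simp only [mem_prod, mem_ofPred_eq]
  rw [heq, h, Measure.volume_eq_prod, Measure.prod_prod, Real.volume_Ioc, ← ENNReal.ofReal_mul (by linarith)]
  congr 1
  ring

theorem pow_mul_half (a : ℕ) : (2 : ℝ) ^ a * (1 / 2) ^ a = 1 := by
  rw [← mul_pow]; norm_num

theorem num_ell {i L : ℕ} (hL : i + 2 ≤ L) :
    (2 : ℝ) ^ (L - (i + 2)) * (1 / 2) ^ L = (1 / 2) ^ (i + 2) := by
  obtain ⟨k, rfl⟩ : ∃ k, L = (i + 2) + k := ⟨L - (i + 2), by omega⟩
  rw [Nat.add_sub_cancel_left, pow_add (1 / 2 : ℝ) (i + 2) k]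
  calc (2 : ℝ) ^ k * ((1 / 2) ^ (i + 2) * (1 / 2) ^ k) =
      (1 / 2) ^ (i + 2) * ((2 : ℝ) ^ k * (1 / 2) ^ k) := by ring
    _ = _ := by rw [pow_mul_half, mul_one]

/-- Small lifts. -/
theorem lift_small {L : ℕ} {w : ℝ} (hw : w ≤ 2 * (1 / 2) ^ (2 * L + 8)) :
    w ≤ ((1 / 2) ^ L) ^ 2 / 100 := by
  have h : (1 / 2 : ℝ) ^ (2 * L + 8) = ((1 / 2) ^ L) ^ 2 / 256 := by
    rw [pow_add, mul_comm 2 L, pow_mul]
    norm_num
    ring
  rw [h] at hw
  have : (0 : ℝ) ≤ ((1 / 2) ^ L) ^ 2 := by positivity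
  linarith

/-- Every point is close to a grid point modulo the lattice. -/
theorem grid_near (i L b : ℕ) (x : Plane) : ∃ m < 2 ^ (L + 2 * b), ∀ j : ℕ,
    (j : ℝ) * (1 / 2) ^ L ≤ 1 →
    ‖((x 1 + nd i L j * x 0 - (((m % 2 ^ b : ℕ) : ℝ) * (1 / 2) ^ b +
      (j * (1 / 2) ^ L) * (((m / 2 ^ b : ℕ) : ℝ) * (1 / 2) ^ b)) : ℝ) : AddCircle (1 : ℝ))‖ ≤
      2 * (1 / 2) ^ b := by
  set X := x 0 with hX
  set y := x 1 + blockLeft i * X with hy
  set n1 : ℤ := ⌊X * (1 / 2) ^ L⌋ with hn1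
  set X' := X - n1 * 2 ^ L with hX'
  have hL1 := pow_mul_half L
  have hb1 := pow_mul_half b
  have hX'0 : 0 ≤ X' := by
    have h := Int.floor_le (X * (1 / 2) ^ L)
    have h2 : (n1 : ℝ) * 2 ^ L ≤ X * (1 / 2) ^ L * 2 ^ L := by gcongr
    have h3 : X * (1 / 2) ^ L * 2 ^ L = X := by rw [mul_assoc, mul_comm ((1 / 2 : ℝ) ^ L), hL1, mul_one]
    rw [h3] at h2
    rw [hX']; linarith
  have hX'1 : X' < 2 ^ L := by
    have h := Int.lt_floor_add_one (X * (1 / 2) ^ L)
    have h2 : X * (1 / 2) ^ L * 2 ^ L < ((n1 : ℝ) + 1) * 2 ^ L := by gcongr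
    have h3 : X * (1 / 2) ^ L * 2 ^ L = X := by rw [mul_assoc, mul_comm ((1 / 2 : ℝ) ^ L), hL1, mul_one]
    rw [h3] at h2
    rw [hX']; linarith
  set pp : ℕ := ⌊X' * 2 ^ b⌋₊ with hpp
  set qq : ℕ := ⌊Int.fract y * 2 ^ b⌋₊ with hqq
  have hfr0 := Int.fract_nonneg y
  have hfr1 := Int.fract_lt_one y
  have hpp1 : pp < 2 ^ (L + b) := by
    rw [hpp, Nat.floor_lt (by positivity)]
    push_cast
    rw [pow_add]
    gcongr
  have hqq1 : qq < 2 ^ b := by
    rw [hqq, Nat.floor_lt (by positivity)]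
    push_cast
    calc Int.fract y * 2 ^ b < 1 * 2 ^ b := by gcongr
      _ = _ := one_mul _
  have hclose : ∀ u : ℝ, 0 ≤ u → |u - (⌊u * 2 ^ b⌋₊ : ℝ) * (1 / 2) ^ b| ≤ (1 / 2) ^ b := by
    intro u hu
    have h1 : (⌊u * 2 ^ b⌋₊ : ℝ) ≤ u * 2 ^ b := Nat.floor_le (by positivity)
    have h2 : u * 2 ^ b < (⌊u * 2 ^ b⌋₊ : ℝ) + 1 := Nat.lt_floor_add_one _
    have h3 : (⌊u * 2 ^ b⌋₊ : ℝ) * (1 / 2) ^ b ≤ u * 2 ^ b * (1 / 2) ^ b := by gcongr
    have h4 : u * 2 ^ b * (1 / 2) ^ b ≤ ((⌊u * 2 ^ b⌋₊ : ℝ) + 1) * (1 / 2) ^ b := by gcongr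
    have h5 : u * 2 ^ b * (1 / 2) ^ b = u := by rw [mul_assoc, hb1, mul_one]
    rw [h5] at h3 h4
    rw [abs_le]
    constructor <;> nlinarith [pow_pos (show (0 : ℝ) < 1 / 2 by norm_num) b]
  refine ⟨pp * 2 ^ b + qq, ?_, ?_⟩
  · have h1 : pp * 2 ^ b + qq < (pp + 1) * 2 ^ b := by
      rw [add_mul, one_mul]; omega
    have h2 : (pp + 1) * 2 ^ b ≤ 2 ^ (L + b) * 2 ^ b := Nat.mul_le_mul_right _ hpp1
    have h3 : 2 ^ (L + b) * 2 ^ b = 2 ^ (L + 2 * b) := by rw [← pow_add]; congr 1; omega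
    omega
  · intro j hj
    have hmod : (pp * 2 ^ b + qq) % 2 ^ b = qq := by
      rw [Nat.add_comm, Nat.add_mul_mod_self_right, Nat.mod_eq_of_lt hqq1]
    have hdiv : (pp * 2 ^ b + qq) / 2 ^ b = pp := by
      rw [mul_comm, Nat.mul_add_div (by positivity), Nat.div_eq_of_lt hqq1, add_zero]
    rw [hmod, hdiv]
    apply norm_le_of_near (⌊y⌋ + j * n1)
    have h1 := hclose (Int.fract y) hfr0
    have h2 := hclose X' hX'0
    have h3 := Int.floor_add_fract y
    have heq : (x 1 + nd i L j * X - ((qq : ℝ) * (1 / 2) ^ b +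
        (j * (1 / 2) ^ L) * ((pp : ℝ) * (1 / 2) ^ b)) - ((⌊y⌋ + j * n1 : ℤ) : ℝ) * 1) =
        (Int.fract y - (qq : ℝ) * (1 / 2) ^ b) +
        (j * (1 / 2) ^ L) * (X' - (pp : ℝ) * (1 / 2) ^ b) := by
      have h4 : (1 / 2 : ℝ) ^ L * (n1 * 2 ^ L) = n1 := by
        calc (1 / 2 : ℝ) ^ L * (n1 * 2 ^ L) = n1 * (2 ^ L * (1 / 2) ^ L) := by ring
          _ = _ := by rw [hL1, mul_one]
      unfold nd
      rw [hX']
      push_cast
      linear_combination -h3 + (j : ℝ) * h4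
    rw [heq]
    refine (abs_add_le _ _).trans ?_
    have hj0 : 0 ≤ (j : ℝ) * (1 / 2) ^ L := by positivity
    rw [abs_mul, abs_of_nonneg hj0]
    calc |Int.fract y - (qq : ℝ) * (1 / 2) ^ b| +
          (j * (1 / 2) ^ L) * |X' - (pp : ℝ) * (1 / 2) ^ b|
        ≤ (1 / 2) ^ b + 1 * (1 / 2) ^ b := by gcongr
      _ = _ := by ring

theorem regime_one_block {p : ℝ} {i L b : ℕ} {C : ℝ} (hL : i + 5 ≤ L) (hb : 1 ≤ b)
    (hcond : 64 * C * 2 ^ (L - (i + 2)) * (1 / 2) ^ b ≤ ((1 / 2 : ℝ) ^ (i + 4)) ^ p) :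
    ∃ w : ℕ → ℝ, (∀ j, 0 ≤ w j) ∧ (∀ j, w j ≤ ((1 / 2) ^ L) ^ 2 / 100) ∧
      BlockGood p i C L ((1 / 2) ^ (2 * L + 8 + b * 2 ^ (L + 2 * b) + b)) w := by
  set I : ℕ := 2 ^ (L + 2 * b) with hI
  set N : ℕ := 2 ^ (L - (i + 2)) with hN
  set h : ℝ := (1 / 2) ^ b with hh
  set τ : ℕ → ℕ → ℝ := fun j m => ((m % 2 ^ b : ℕ) : ℝ) * (1 / 2) ^ b +
      (j * (1 / 2) ^ L) * (((m / 2 ^ b : ℕ) : ℝ) * (1 / 2) ^ b) with hτ
  choose w hw0 hw1 hw using fun j => digits hb I (2 * L + 8) (1 + nd i L j ^ 2 / 2) (τ j)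
  refine ⟨w, hw0, fun j => lift_small (hw1 j), ?_⟩
  set K : ℕ := 2 * L + 8 + b * I + 3 with hK
  have hh0 : 0 < h := by positivity
  have hN8 : 8 ≤ N := by
    rw [hN]
    calc 8 = 2 ^ 3 := by norm_num
      _ ≤ 2 ^ (L - (i + 2)) := Nat.pow_le_pow_right (by norm_num) (by omega)
  have hNell : (N : ℝ) * (1 / 2) ^ L = (1 / 2) ^ (i + 2) := by
    rw [hN]; push_cast; exact num_ell (by omega)
  set R1 : ℕ := 2 ^ (K + 1) with hR1
  set Sj : ℕ → Set Plane := fun j => {z : Plane | z 0 ∈ Ioc (-(R1 : ℝ)) R1 ∧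
    z 1 ∈ Ioc (-(R1 : ℝ)) R1 ∧ ‖((z 1 + nd i L j * z 0 : ℝ) : AddCircle (1 : ℝ))‖ ≤ 8 * h} with hSj
  set S : Set Plane := ⋃ j ∈ Finset.Ico 1 N, Sj j with hS
  have hSmeas : MeasurableSet S :=
    Finset.measurableSet_biUnion _ (fun j _ => measurableSet_strip _ _ _)
  refine ⟨S, hSmeas, N * (4 * (R1 : ℝ) ^ 2 * (16 * h)), by positivity, ?_, ?_⟩
  · calc volume S ≤ ∑ j ∈ Finset.Ico 1 N, volume (Sj j) := measure_biUnion_finset_le _ _
      _ ≤ ∑ _j ∈ Finset.Ico 1 N, ENNReal.ofReal (4 * (R1 : ℝ) ^ 2 * (16 * h)) := by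
          apply Finset.sum_le_sum
          intro j _
          refine (volume_strips measurableSet_Ioc (nd i L j) (8 * h) R1).trans (le_of_eq ?_)
          have hR1' : (0 : ℝ) ≤ R1 - -R1 := by
            have : (0 : ℝ) ≤ R1 := Nat.cast_nonneg _
            linarith
          rw [Real.volume_Ioc, ← ENNReal.ofReal_natCast, ← ENNReal.ofReal_mul (by positivity),
            ← ENNReal.ofReal_mul hR1']
          congr 1
          push_cast
          ring
      _ ≤ ENNReal.ofReal (N * (4 * (R1 : ℝ) ^ 2 * (16 * h))) := by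
          rw [Finset.sum_const, Nat.card_Ico, nsmul_eq_mul,
            ENNReal.ofReal_mul (p := (N : ℝ)) (by positivity), ENNReal.ofReal_natCast]
          gcongr
          exact Nat.sub_le _ _
  · refine ⟨{z : Plane | z 0 ∈ Ioc (-(2 ^ K : ℝ)) (2 ^ K) ∧ z 1 ∈ Ioc (-(2 ^ K : ℝ)) (2 ^ K)},
      measurableSet_box _, (1 / 2) ^ (i + 4), by positivity, ?_, ?_⟩
    · rw [volume_box _ (by positivity), ← ENNReal.ofReal_mul (by positivity)]
      apply ENNReal.ofReal_le_ofReal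
      have h1 : (R1 : ℝ) = 2 * 2 ^ K := by rw [hR1]; push_cast; rw [pow_succ]; ring
      rw [h1]
      have h2 : C * (N * (4 * (2 * 2 ^ K) ^ 2 * (16 * h))) =
          (64 * C * N * h) * (4 * (2 ^ K) ^ 2) := by ring
      rw [h2]
      have h3 : 64 * C * N * h ≤ ((1 / 2 : ℝ) ^ (i + 4)) ^ p := by
        rw [hN]; push_cast; exact hcond
      gcongr
    · intro f hf hf3 x hx
      obtain ⟨m, hm, hgrid⟩ := grid_near i L b x
      refine ⟨2 * L + 8 + b * m, {y : ℝ | ‖((y + -blockLeft i : ℝ) :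
        AddCircle ((1 / 2 : ℝ) ^ L))‖ ≤ (1 / 2) ^ L / 4} ∩
        Ioc (blockLeft i + (1 / 2) ^ L / 2)
          (blockLeft i + (1 / 2) ^ L / 2 + (N - 1 : ℕ) * (1 / 2) ^ L), ?_, ?_, ?_⟩
      · -- contained in the interval
        rintro t ⟨ht1, ht2, ht3⟩
        obtain ⟨n, hn⟩ := exists_near ht1
        have hl : (0 : ℝ) < (1 / 2) ^ L := by positivity
        have hN1 : ((N - 1 : ℕ) : ℝ) = N - 1 := by
          rw [Nat.cast_sub (by omega)]; simp
        rw [hN1] at ht3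
        have hn1 : 1 ≤ n := by
          have h1 : (0 : ℝ) < n := by
            rw [abs_le] at hn
            by_contra hcon
            rw [not_lt] at hcon
            nlinarith [hn.2]
          exact_mod_cast h1
        have hn2 : n + 1 ≤ N := by
          have h1 : (n : ℝ) < N := by
            rw [abs_le] at hn
            by_contra hcon
            rw [not_lt] at hcon
            nlinarith [hn.1]
          have : n < N := by exact_mod_cast h1
          omega
        obtain ⟨j, rfl⟩ : ∃ j : ℕ, n = j := ⟨n.toNat, by omega⟩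
        apply nd_mem hL (j := j) (by omega) (by omega) (t := t)
        unfold nd
        rw [Int.cast_natCast] at hn
        convert hn using 2
        ring
      · have h1 := volume_near (show (0 : ℝ) < (1 / 2) ^ L by positivity)
          (blockLeft i + (1 / 2) ^ L / 2) (-blockLeft i) ((1 / 2) ^ L / 4) (N - 1)
        rw [h1, min_eq_right (by
          have : (0 : ℝ) < (1 / 2) ^ L := by positivity
          linarith), ← ENNReal.ofReal_natCast, ← ENNReal.ofReal_mul (by positivity)]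
        apply ENNReal.ofReal_le_ofReal
        have hN1 : ((N - 1 : ℕ) : ℝ) = N - 1 := by
          rw [Nat.cast_sub (by omega)]; simp
        rw [hN1]
        have h2 : (1 / 2 : ℝ) ^ (i + 4) = (N : ℝ) * (1 / 2) ^ L / 4 := by
          rw [hNell, pow_add (1 / 2 : ℝ) i 4, pow_add (1 / 2 : ℝ) i 2]; ring
        rw [h2]
        have h3 : (8 : ℝ) ≤ N := by exact_mod_cast hN8
        have : (0 : ℝ) < (1 / 2) ^ L := by positivity
        nlinarith
      · rintro t ⟨ht1, ht2, ht3⟩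
        obtain ⟨n, hn⟩ := exists_near ht1
        have hl : (0 : ℝ) < (1 / 2) ^ L := by positivity
        have hN1 : ((N - 1 : ℕ) : ℝ) = N - 1 := by
          rw [Nat.cast_sub (by omega)]; simp
        rw [hN1] at ht3
        have hn1 : 1 ≤ n := by
          have h1 : (0 : ℝ) < n := by
            rw [abs_le] at hn
            by_contra hcon
            rw [not_lt] at hcon
            nlinarith [hn.2]
          exact_mod_cast h1
        have hn2 : n + 1 ≤ N := by
          have h1 : (n : ℝ) < N := by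
            rw [abs_le] at hn
            by_contra hcon
            rw [not_lt] at hcon
            nlinarith [hn.1]
          have : n < N := by exact_mod_cast h1
          omega
        obtain ⟨j, rfl⟩ : ∃ j : ℕ, n = j := ⟨n.toNat, by omega⟩
        have hj1 : 1 ≤ j := by omega
        have hj2 : j + 1 ≤ N := by omega
        have htj : |t - nd i L j| ≤ (1 / 2) ^ L / 4 := by
          unfold nd
          rw [Int.cast_natCast] at hn
          convert hn using 2
          ring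
        have htI := nd_mem hL hj1 hj2 htj
        have hft := hf j t hj1 hj2 htj
        have hbox := box_shift (K := K) (k := 2 * L + 8 + b * m) (f := f) (t := t) (x := x)
          (by
            have : b * m ≤ b * I := Nat.mul_le_mul_left b hm.le
            omega) htI (hf3 t (Ioo_subset_Icc_self htI)) hx.1 hx.2
        rw [hS, mem_iUnion₂]
        refine ⟨j, Finset.mem_Ico.mpr ⟨hj1, by omega⟩, hbox.1, hbox.2, ?_⟩
        have hshift := plateau_shift (i := i) (L := L) (j := j) (b := b) (I := I) (m := m)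
          (w := w j) (τ := τ j m) hm (hw j m hm) htj hft x
        have hjl : (j : ℝ) * (1 / 2) ^ L ≤ 1 := by
          have h5 : (j : ℝ) ≤ N := by exact_mod_cast (by omega : j ≤ N)
          calc (j : ℝ) * (1 / 2) ^ L ≤ N * (1 / 2) ^ L := by gcongr
            _ = (1 / 2) ^ (i + 2) := hNell
            _ ≤ 1 := pow_le_one₀ (by norm_num) (by norm_num)
        have hg := hgrid j hjl
        set z := x - (2 : ℝ) ^ (2 * L + 8 + b * m) • gr f t with hz
        have hsum : (z 1 + nd i L j * z 0 : ℝ) =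
            (z 1 + nd i L j * z 0 - (x 1 + nd i L j * x 0 - τ j m)) +
            (x 1 + nd i L j * x 0 - τ j m) := by ring
        rw [hsum, AddCircle.coe_add]
        refine (norm_add_le _ _).trans ?_
        calc _ ≤ 3 * h + 2 * h := add_le_add hshift hg
          _ ≤ 8 * h := by linarith

end Pool.Agent.Helper61.Lacunary
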