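import Mathlib
import Pool.Agent.Helper61.Lacunary.RegimeOne

/-!
# Small exponents: lattice balls
-/

open MeasureTheory Set
open scoped ENNReal

namespace Pool.Agent.Helper61.Lacunary

theorem regime_two_block {p : ℝ} {i L b I : ℕ} {C : ℝ} (hL : i + 5 ≤ L) (hb : 1 ≤ b)
    (hI : 2 ^ b ≤ 2 ^ (L - (i + 2)) * I)
    (hcond : 160 * C * ((1 / 2 : ℝ) ^ b) ^ 2 * (1 / 2) ^ L ≤
      ((1 / 2 : ℝ) ^ b * ((1 / 2) ^ L) ^ 2) ^ p) :
    ∃ w : ℕ → ℝ, (∀ j, 0 ≤ w j) ∧ (∀ j, w j ≤ ((1 / 2) ^ L) ^ 2 / 100) ∧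
      BlockGood p i C L ((1 / 2) ^ (2 * L + 8 + b * I + b)) w := by
  set N : ℕ := 2 ^ (L - (i + 2)) with hN
  set h : ℝ := (1 / 2) ^ b with hh
  set K : ℕ := 2 * L + 8 + b * I + 3 with hK
  have hh0 : 0 < h := by positivity
  have hhalf : h ≤ 1 / 2 := by
    calc (1 / 2 : ℝ) ^ b ≤ (1 / 2) ^ 1 := pow_le_pow_of_le_one (by norm_num) (by norm_num) hb
      _ = 1 / 2 := by norm_num
  have hN8 : 8 ≤ N := by
    rw [hN]
    calc 8 = 2 ^ 3 := by norm_num
      _ ≤ 2 ^ (L - (i + 2)) := Nat.pow_le_pow_right (by norm_num) (by omega)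
  have hNell : (N : ℝ) * (1 / 2) ^ L = (1 / 2) ^ (i + 2) := by
    rw [hN]; push_cast; exact num_ell (by omega)
  have hIpos : 0 < I := by
    rcases Nat.eq_zero_or_pos I with h0 | h0
    · rw [h0, mul_zero] at hI
      have : 0 < 2 ^ b := by positivity
      omega
    · exact h0
  set box : Set Plane := {z : Plane | z 0 ∈ Ioc (-(2 ^ K : ℝ)) (2 ^ K) ∧
    z 1 ∈ Ioc (-(2 ^ K : ℝ)) (2 ^ K)} with hbox
  have hboxmeas : MeasurableSet box := measurableSet_box _
  have hboxvol : volume box = ENNReal.ofReal (4 * (2 ^ K) ^ 2) := volume_box _ (by positivity)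
  set T : ℕ := (N - 1) * I with hT
  set v : ℕ → Plane → ℝ := fun r x => x 1 + nd i L (r / I + 1) * x 0 with hv
  have hvm : ∀ r, Measurable (v r) := by
    intro r
    have h0 : Continuous (fun z : Plane => z 0) := by fun_prop
    have h1 : Continuous (fun z : Plane => z 1) := by fun_prop
    exact (h1.add (continuous_const.mul h0)).measurable
  obtain ⟨s, hs⟩ := greedy_cover hboxmeas hh0.le (by linarith) v hvm T
  set τ : ℕ → ℕ → ℝ := fun j m => s ((j - 1) * I + m) with hτ
  choose w hw0 hw1 hw using fun j => digits hb I (2 * L + 8) (1 + nd i L j ^ 2 / 2) (τ j)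
  refine ⟨w, hw0, fun j => lift_small (hw1 j), ?_⟩
  set R1 : ℕ := 2 ^ (K + 1) with hR1
  have hR1r : (R1 : ℝ) = 2 * 2 ^ K := by rw [hR1]; push_cast; rw [pow_succ]; ring
  -- the test set
  set A : Set ℝ := {y : ℝ | ‖((y + 0 : ℝ) : AddCircle ((2 : ℝ) ^ L))‖ ≤ h} ∩
    Ioc (-(R1 : ℝ)) R1 with hA
  have hAmeas : MeasurableSet A := (measurableSet_near _ _ _).inter measurableSet_Ioc
  set K' : ℕ := 2 ^ (K + 2 - L) with hK'
  have hK'r : (K' : ℝ) * 2 ^ L = 4 * 2 ^ K := by
    rw [hK']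
    push_cast
    rw [← pow_add, show K + 2 - L + L = K + 2 by omega, pow_add]
    ring
  have hAvol : volume A ≤ ENNReal.ofReal (K' * (2 * h)) := by
    have h1 := volume_near (show (0 : ℝ) < 2 ^ L by positivity) (-(R1 : ℝ)) 0 h K'
    have h2 : -(R1 : ℝ) + K' * 2 ^ L = R1 := by rw [hK'r, hR1r]; ring
    rw [h2] at h1
    rw [h1, ENNReal.ofReal_mul (by positivity), ENNReal.ofReal_natCast]
    gcongr
    exact min_le_right _ _
  set S : Set Plane := {z : Plane | z 0 ∈ A ∧ z 1 ∈ Ioc (-(R1 : ℝ)) R1 ∧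
    ‖((z 1 + blockLeft i * z 0 : ℝ) : AddCircle (1 : ℝ))‖ ≤ 5 * h} with hS
  have hSmeas : MeasurableSet S := by
    have h0 : Continuous (fun z : Plane => z 0) := by fun_prop
    have h1 := measurableSet_strip R1 (blockLeft i) (5 * h)
    have h2 : S = (fun z : Plane => z 0) ⁻¹' A ∩ {z : Plane | z 0 ∈ Ioc (-(R1 : ℝ)) R1 ∧
      z 1 ∈ Ioc (-(R1 : ℝ)) R1 ∧
      ‖((z 1 + blockLeft i * z 0 : ℝ) : AddCircle (1 : ℝ))‖ ≤ 5 * h} := by
      ext z
      constructor
      · rintro ⟨h3, h4, h5⟩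
        exact ⟨h3, h3.2, h4, h5⟩
      · rintro ⟨h3, h4, h5, h6⟩
        exact ⟨h3, h5, h6⟩
    rw [h2]
    exact (h0.measurable hAmeas).inter h1
  -- the good set
  set Q : Set Plane := box ∩ {x | ∃ r < T, ‖((v r x - s r : ℝ) : AddCircle (1 : ℝ))‖ ≤ h} with hQ
  have hQmeas : MeasurableSet Q := by
    apply hboxmeas.inter
    have : {x | ∃ r < T, ‖((v r x - s r : ℝ) : AddCircle (1 : ℝ))‖ ≤ h} =
        ⋃ r : ℕ, ⋃ _ : r < T, {x | ‖((v r x - s r : ℝ) : AddCircle (1 : ℝ))‖ ≤ h} := by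
      ext x; simp
    rw [this]
    refine MeasurableSet.iUnion fun r => MeasurableSet.iUnion fun _ => ?_
    exact measurableSet_le (AddCircle.measurable_mk'.comp ((hvm r).sub_const _)).norm
      (measurable_const (a := h))
  have hpow : (1 - 2 * h) ^ T ≤ 1 / 2 := by
    have hTr : (T : ℝ) = (N - 1) * I := by
      rw [hT]
      push_cast [Nat.cast_sub (show 1 ≤ N by omega)]
      ring
    have h1 : 1 ≤ 2 * h * T := by
      have h2 : (2 : ℝ) ^ b ≤ N * I := by
        have : ((2 ^ b : ℕ) : ℝ) ≤ ((N * I : ℕ) : ℝ) := by exact_mod_cast hI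
        push_cast at this
        exact this
      have h3 : (8 : ℝ) ≤ N := by exact_mod_cast hN8
      have h4 : (0 : ℝ) < I := by exact_mod_cast hIpos
      have h5 : (N : ℝ) * I ≤ 2 * T := by rw [hTr]; nlinarith
      have h6 : h * 2 ^ b = 1 := by rw [hh, mul_comm]; exact pow_mul_half b
      calc (1 : ℝ) = h * 2 ^ b := h6.symm
        _ ≤ h * (2 * T) := by gcongr; linarith
        _ = _ := by ring
    have h7 : 1 - 2 * h ≤ Real.exp (-(2 * h)) := by
      have := Real.add_one_le_exp (-(2 * h))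
      linarith
    calc (1 - 2 * h) ^ T ≤ (Real.exp (-(2 * h))) ^ T := by
          gcongr
          linarith
      _ = Real.exp (-(2 * h * T)) := by
          rw [← Real.exp_nat_mul]; congr 1; ring
      _ ≤ Real.exp (-1) := by
          apply Real.exp_le_exp.mpr; linarith
      _ ≤ 1 / 2 := by
          rw [Real.exp_neg]
          have := Real.exp_one_gt_d9
          rw [inv_le_comm₀ (Real.exp_pos _) (by norm_num)]
          norm_num
          linarith
  have hQvol : ENNReal.ofReal (2 * (2 ^ K) ^ 2) ≤ volume Q := by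
    have h1 : volume box ≤ volume Q +
        volume (box ∩ {x | ∀ r < T, h < ‖((v r x - s r : ℝ) : AddCircle (1 : ℝ))‖}) := by
      refine le_trans (measure_mono ?_) (measure_union_le _ _)
      intro x hx
      by_cases hc : ∃ r < T, ‖((v r x - s r : ℝ) : AddCircle (1 : ℝ))‖ ≤ h
      · left; exact ⟨hx, hc⟩
      · right
        push Not at hc
        exact ⟨hx, hc⟩
    have h2 : volume (box ∩ {x | ∀ r < T, h < ‖((v r x - s r : ℝ) : AddCircle (1 : ℝ))‖}) ≤
        ENNReal.ofReal (2 * (2 ^ K) ^ 2) := by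
      refine hs.trans ?_
      rw [← ENNReal.ofReal_pow (by linarith), hboxvol, ← ENNReal.ofReal_mul (by
        have : 0 ≤ 1 - 2 * h := by linarith
        positivity)]
      apply ENNReal.ofReal_le_ofReal
      have h3 : (0 : ℝ) ≤ 4 * (2 ^ K) ^ 2 := by positivity
      calc (1 - 2 * h) ^ T * (4 * (2 ^ K) ^ 2) ≤ 1 / 2 * (4 * (2 ^ K) ^ 2) := by gcongr
        _ = _ := by ring
    have h3 : ENNReal.ofReal (2 * (2 ^ K) ^ 2) + ENNReal.ofReal (2 * (2 ^ K) ^ 2) ≤
        volume Q + ENNReal.ofReal (2 * (2 ^ K) ^ 2) := by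
      rw [← ENNReal.ofReal_add (by positivity) (by positivity)]
      have h4 : (2 * (2 ^ K) ^ 2 + 2 * (2 ^ K) ^ 2 : ℝ) = 4 * (2 ^ K) ^ 2 := by ring
      rw [h4, ← hboxvol]
      exact h1.trans (by gcongr)
    exact (ENNReal.add_le_add_iff_right ENNReal.ofReal_ne_top).mp h3
  refine ⟨S, hSmeas, 320 * (2 ^ K) ^ 2 * (1 / 2) ^ L * h ^ 2, by positivity, ?_, Q, hQmeas,
    h * ((1 / 2) ^ L) ^ 2, by positivity, ?_, ?_⟩
  · calc volume S ≤ volume A * ((2 * R1 : ℕ) * ENNReal.ofReal (2 * (5 * h))) :=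
          volume_strips hAmeas (blockLeft i) (5 * h) R1
      _ ≤ ENNReal.ofReal (K' * (2 * h)) * ((2 * R1 : ℕ) * ENNReal.ofReal (2 * (5 * h))) := by
          gcongr
      _ = ENNReal.ofReal (K' * (2 * h) * ((2 * R1 : ℕ) * (2 * (5 * h)))) := by
          rw [← ENNReal.ofReal_natCast, ← ENNReal.ofReal_mul (by positivity),
            ← ENNReal.ofReal_mul (by positivity)]
      _ ≤ _ := by
          apply ENNReal.ofReal_le_ofReal
          apply le_of_eq
          push_cast
          rw [hR1r]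
          have h1 : (K' : ℝ) = 4 * 2 ^ K * (1 / 2) ^ L := by
            rw [← hK'r, mul_assoc, pow_mul_half, mul_one]
          rw [h1]
          ring
  · calc ENNReal.ofReal (C * (320 * (2 ^ K) ^ 2 * (1 / 2) ^ L * h ^ 2))
        ≤ ENNReal.ofReal ((h * ((1 / 2) ^ L) ^ 2) ^ p) * ENNReal.ofReal (2 * (2 ^ K) ^ 2) := by
          rw [← ENNReal.ofReal_mul (by positivity)]
          apply ENNReal.ofReal_le_ofReal
          calc C * (320 * (2 ^ K) ^ 2 * (1 / 2) ^ L * h ^ 2) =
              (160 * C * h ^ 2 * (1 / 2) ^ L) * (2 * (2 ^ K) ^ 2) := by ring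
            _ ≤ _ := by gcongr
      _ ≤ _ := by gcongr
  · intro f hf hf3 x hx
    obtain ⟨hxbox, r, hr, hxr⟩ := hx
    set j : ℕ := r / I + 1 with hj
    set m : ℕ := r % I with hm
    have hmI : m < I := Nat.mod_lt _ hIpos
    have hjN : r / I < N - 1 := by
      rw [Nat.div_lt_iff_lt_mul hIpos]
      exact hr
    have hj1 : 1 ≤ j := Nat.le_add_left 1 _
    have hj2 : j + 1 ≤ N := Nat.lt_sub_iff_add_lt.mp hjN
    have hrr : (j - 1) * I + m = r := by
      rw [hj, hm, Nat.add_sub_cancel, mul_comm]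
      exact Nat.div_add_mod r I
    have hτr : τ j m = s r := by
      rw [hτ]
      simp only
      rw [hrr]
    have hvx : ‖((x 1 + nd i L j * x 0 - τ j m : ℝ) : AddCircle (1 : ℝ))‖ ≤ h := by
      rw [hτr]; exact hxr
    set k : ℕ := 2 * L + 8 + b * m with hk
    set X := x 0 with hX
    set l : ℝ := (1 / 2) ^ L with hl
    have hl0 : 0 < l := by positivity
    set K'' : ℕ := 2 ^ (k - 2 * L - 1) with hK''
    have hK''r : (K'' : ℝ) * 2 ^ L = 2 ^ k * (l / 2) := by
      have h1 : (2 : ℝ) ^ k = 2 ^ (k - 2 * L - 1) * 2 ^ L * 2 ^ L * 2 := by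
        rw [← pow_add, ← pow_add, ← pow_succ]
        congr 1
        omega
      have h2 := pow_mul_half L
      rw [hK'', h1, hl]
      push_cast
      linear_combination (-(2 : ℝ) ^ (k - 2 * L - 1) * 2 ^ L) * h2
    set y0 : ℝ := X - 2 ^ k * (nd i L j + l / 4) with hy0
    set E : Set ℝ := {y : ℝ | ‖((y + 0 : ℝ) : AddCircle ((2 : ℝ) ^ L))‖ ≤ h} ∩
      Ioc y0 (y0 + K'' * 2 ^ L) with hE
    set V : Set ℝ := (fun t => X - 2 ^ k * t) ⁻¹' E with hV
    have hVt : ∀ t ∈ V, |t - nd i L j| ≤ l / 4 := by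
      rintro t ⟨_, ht1, ht2⟩
      have h2k : (0 : ℝ) < 2 ^ k := by positivity
      rw [hK''r] at ht2
      simp only [hy0] at ht1 ht2
      have h1 : (2 : ℝ) ^ k * t < 2 ^ k * (nd i L j + l / 4) := by linarith
      have h2 : (2 : ℝ) ^ k * (nd i L j - l / 4) ≤ 2 ^ k * t := by linarith
      have h3 := lt_of_mul_lt_mul_left h1 h2k.le
      have h4 := le_of_mul_le_mul_left h2 h2k
      rw [abs_le]
      constructor <;> linarith
    refine ⟨k, V, ?_, ?_, ?_⟩
    · intro t ht
      exact nd_mem hL hj1 hj2 (hVt t ht)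
    · have hEvol : volume E = ENNReal.ofReal (K'' * (2 * h)) := by
        have h1 := volume_near (show (0 : ℝ) < 2 ^ L by positivity) y0 0 h K''
        rw [hE, h1, min_eq_right, ENNReal.ofReal_mul (p := (K'' : ℝ)) (by positivity),
          ENNReal.ofReal_natCast]
        have : (1 : ℝ) ≤ 2 ^ L := one_le_pow₀ (by norm_num)
        linarith
      have hVvol : volume V = ENNReal.ofReal ((2 ^ k)⁻¹ * (K'' * (2 * h))) := by
        have h1 : V = (fun t => -(2 ^ k : ℝ) * t) ⁻¹' ((fun y => y + X) ⁻¹' E) := by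
          ext t
          simp only [hV, mem_preimage]
          have : -(2 ^ k : ℝ) * t + X = X - 2 ^ k * t := by ring
          rw [this]
        rw [h1, Real.volume_preimage_mul_left (by
          have : (0 : ℝ) < 2 ^ k := by positivity
          linarith), measure_preimage_add_right, hEvol, ← ENNReal.ofReal_mul (abs_nonneg _)]
        congr 2
        rw [inv_neg, abs_neg, abs_of_pos (by positivity)]
      rw [hVvol]
      apply ENNReal.ofReal_le_ofReal
      apply le_of_eq
      have h2k : (0 : ℝ) < 2 ^ k := by positivity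
      have h3 : (K'' : ℝ) = 2 ^ k * (l / 2) * l := by
        rw [← hK''r, hl, mul_assoc, pow_mul_half, mul_one]
      rw [h3]
      field_simp
    · intro t ht
      have htj := hVt t ht
      have htI := nd_mem hL hj1 hj2 htj
      have hft := hf j t hj1 hj2 htj
      have hbox2 := box_shift (K := K) (k := k) (f := f) (t := t) (x := x)
        (by
          have : b * m ≤ b * I := Nat.mul_le_mul_left b hmI.le
          omega) htI (hf3 t (Ioo_subset_Icc_self htI)) hxbox.1 hxbox.2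
      have hshift := plateau_shift (i := i) (L := L) (j := j) (b := b) (I := I) (m := m)
        (w := w j) (τ := τ j m) hmI (hw j m hmI) htj hft x
      set z := x - (2 : ℝ) ^ k • gr f t with hz
      have hz0 : z 0 = X - 2 ^ k * t := by
        rw [hz]
        simp only [PiLp.sub_apply, PiLp.smul_apply, gr_zero, smul_eq_mul]
        rfl
      have hz0E : ‖((z 0 + 0 : ℝ) : AddCircle ((2 : ℝ) ^ L))‖ ≤ h := by
        rw [hz0]; exact ht.1
      refine ⟨⟨hz0E, hbox2.1⟩, hbox2.2, ?_⟩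
      obtain ⟨n, hn⟩ := exists_near hz0E
      rw [add_zero] at hn
      have hjl : (j : ℝ) * l ≤ 1 := by
        have h5 : (j : ℝ) ≤ N := by exact_mod_cast (by omega : j ≤ N)
        calc (j : ℝ) * l ≤ N * l := by gcongr
          _ = (1 / 2) ^ (i + 2) := hNell
          _ ≤ 1 := pow_le_one₀ (by norm_num) (by norm_num)
      have hjl0 : 0 ≤ (j : ℝ) * l := by positivity
      have hlast : ‖((-(j * l * z 0) : ℝ) : AddCircle (1 : ℝ))‖ ≤ h := by
        rw [AddCircle.coe_neg, norm_neg]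
        apply norm_le_of_near (j * n)
        have h6 : (j : ℝ) * l * z 0 - ((j * n : ℤ) : ℝ) * 1 = j * l * (z 0 - n * 2 ^ L) := by
          have h7 : l * 2 ^ L = 1 := by rw [hl, mul_comm]; exact pow_mul_half L
          push_cast
          linear_combination (j : ℝ) * n * h7
        rw [h6, abs_mul, abs_of_nonneg hjl0]
        calc (j : ℝ) * l * |z 0 - n * 2 ^ L| ≤ 1 * h := by gcongr
          _ = h := one_mul _
      have hsum : (z 1 + blockLeft i * z 0 : ℝ) =
          (z 1 + nd i L j * z 0 - (x 1 + nd i L j * x 0 - τ j m)) +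
          (x 1 + nd i L j * x 0 - τ j m) + -(j * l * z 0) := by
        unfold nd
        ring
      rw [hsum, AddCircle.coe_add, AddCircle.coe_add]
      refine (norm_add₃_le).trans ?_
      linarith

end Pool.Agent.Helper61.Lacunary
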