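import Mathlib
import Pool.Agent.Helper61.Lacunary.RegimeTwo

/-!
# Choice of the parameters of one block
-/

open MeasureTheory Set
open scoped ENNReal

namespace Pool.Agent.Helper61.Lacunary

theorem half_pow (n : ℕ) : ((1 / 2 : ℝ)) ^ n = (2 : ℝ) ^ (-(n : ℝ)) := by
  rw [Real.rpow_neg (by norm_num), Real.rpow_natCast, one_div, inv_pow]

theorem two_pow (n : ℕ) : ((2 : ℝ)) ^ n = (2 : ℝ) ^ (n : ℝ) := by
  rw [Real.rpow_natCast]

theorem exists_large (D1 D2 s1 s2 : ℝ) (h1 : 0 < s1) (h2 : 0 < s2) (m : ℕ) :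
    ∃ r : ℕ, m ≤ r ∧ D1 * (1 / 2) ^ r ≤ s1 ∧ D2 * (1 / 2) ^ r ≤ s2 := by
  have ht : ∀ D : ℝ, Filter.Tendsto (fun r : ℕ => D * (1 / 2 : ℝ) ^ r) Filter.atTop (nhds 0) := by
    intro D
    have := (tendsto_pow_atTop_nhds_zero_of_lt_one (r := (1 / 2 : ℝ)) (by norm_num)
      (by norm_num)).const_mul D
    simpa using this
  have e1 := (ht D1).eventually_le_const h1
  have e2 := (ht D2).eventually_le_const h2
  obtain ⟨r, hr⟩ := (e1.and (e2.and (Filter.eventually_ge_atTop m))).exists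
  exact ⟨r, hr.2.2, hr.1, hr.2.1⟩

/-- The cap integral condition: common estimate. -/
theorem cap_estimate {p : ℝ} {u v r i I : ℕ} {c : ℝ}
    (hI1 : 1 ≤ I)
    (hI : (I : ℝ) ≤ (2 : ℝ) ^ ((i : ℝ) + 2 + c * r)) (hc : c + 2 ≤ p * v) :
    (8 * (1 / 2 : ℝ) ^ (v * r)) ^ p *
      ((2 * (v * r) + 8 + (u * r) * I + (u * r) + 2 * (v * r) : ℕ) + 1) ≤
      ((8 : ℝ) ^ p * (4 * v + 2 * u + 9) * 2 ^ ((i : ℝ) + 2)) * (1 / 2) ^ r := by
  have hI1' : (1 : ℝ) ≤ I := by exact_mod_cast hI1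
  have h1 : (((2 * (v * r) + 8 + (u * r) * I + (u * r) + 2 * (v * r) : ℕ) : ℝ) + 1) ≤
      (4 * v + 2 * u + 9) * 2 ^ r * I := by
    have hr : (r : ℝ) ≤ 2 ^ r := by exact_mod_cast (Nat.lt_two_pow_self (n := r)).le
    have hr1 : (1 : ℝ) ≤ 2 ^ r := one_le_pow₀ (by norm_num)
    push_cast
    have h2 : (v : ℝ) * r ≤ v * 2 ^ r * I := by
      calc (v : ℝ) * r ≤ v * 2 ^ r := by gcongr
        _ = v * 2 ^ r * 1 := by ring
        _ ≤ v * 2 ^ r * I := by gcongr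
    have h3 : (u : ℝ) * r ≤ u * 2 ^ r * I := by
      calc (u : ℝ) * r ≤ u * 2 ^ r := by gcongr
        _ = u * 2 ^ r * 1 := by ring
        _ ≤ u * 2 ^ r * I := by gcongr
    have h4 : (u : ℝ) * r * I ≤ u * 2 ^ r * I := by gcongr
    have h5 : (9 : ℝ) ≤ 9 * 2 ^ r * I := by nlinarith
    nlinarith
  have h6 : (8 * (1 / 2 : ℝ) ^ (v * r)) ^ p = 8 ^ p * 2 ^ (-(p * v * r)) := by
    rw [Real.mul_rpow (by norm_num) (by positivity), half_pow, ← Real.rpow_mul (by norm_num)]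
    congr 2
    push_cast
    ring
  rw [h6]
  calc (8 : ℝ) ^ p * 2 ^ (-(p * v * r)) * (((2 * (v * r) + 8 + (u * r) * I + (u * r) +
        2 * (v * r) : ℕ) : ℝ) + 1)
      ≤ 8 ^ p * 2 ^ (-(p * v * r)) * ((4 * v + 2 * u + 9) * 2 ^ r *
        (2 : ℝ) ^ ((i : ℝ) + 2 + c * r)) := by
        gcongr
        refine h1.trans ?_
        gcongr
    _ = (8 ^ p * (4 * v + 2 * u + 9)) * (2 ^ (-(p * v * r)) * 2 ^ (r : ℝ) *
        2 ^ ((i : ℝ) + 2 + c * r)) := by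
        rw [two_pow r]; ring
    _ = (8 ^ p * (4 * v + 2 * u + 9)) *
        (2 : ℝ) ^ (-(p * v * r) + r + ((i : ℝ) + 2 + c * r)) := by
        rw [Real.rpow_add (by norm_num) (-(p * v * r) + r) ((i : ℝ) + 2 + c * r),
          Real.rpow_add (by norm_num) (-(p * v * r)) (r : ℝ)]
    _ ≤ (8 ^ p * (4 * v + 2 * u + 9)) * (2 : ℝ) ^ (((i : ℝ) + 2) + -(r : ℝ)) := by
        apply mul_le_mul_of_nonneg_left _ (by positivity)
        apply Real.rpow_le_rpow_of_exponent_le (by norm_num)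
        have : (0 : ℝ) ≤ r := Nat.cast_nonneg _
        nlinarith
    _ = _ := by
        rw [Real.rpow_add (by norm_num) ((i : ℝ) + 2) (-(r : ℝ)), half_pow r]; ring

/-- Requirements on one block. -/
def BlockOK (p : ℝ) (i : ℕ) (C : ℝ) : Prop :=
  ∃ L : ℕ, i + 5 ≤ L ∧ ∃ e : ℝ, 0 < e ∧ e ≤ 1 / 4 ∧ ∃ w : ℕ → ℝ, (∀ j, 0 ≤ w j) ∧
    (∀ j, w j ≤ ((1 / 2) ^ L) ^ 2 / 100) ∧ ∃ κ : ℕ, (1 / 2 : ℝ) ^ κ ≤ e * ((1 / 2) ^ L) ^ 2 ∧
      (8 * (1 / 2 : ℝ) ^ L) ^ p * (κ + 1) ≤ (1 / 2) ^ i ∧ BlockGood p i C L e w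

theorem e_small (n : ℕ) (L : ℕ) (a : ℕ) : ((1 / 2 : ℝ)) ^ (2 * L + 8 + n + a) ≤ 1 / 4 := by
  calc (1 / 2 : ℝ) ^ (2 * L + 8 + n + a) ≤ (1 / 2) ^ 2 :=
        pow_le_pow_of_le_one (by norm_num) (by norm_num) (by omega)
    _ = 1 / 4 := by norm_num

theorem blockOK_large {p : ℝ} (hp : 3 < p) (i : ℕ) (C : ℝ) : BlockOK p i C := by
  obtain ⟨v, hv⟩ := exists_nat_ge (4 / (p - 3))
  have hv' : 4 ≤ (p - 3) * v := by
    have h1 : 0 < p - 3 := by linarith
    rw [div_le_iff₀ h1] at hv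
    linarith
  have hv1 : 1 ≤ v := by
    rcases Nat.eq_zero_or_pos v with h | h
    · rw [h] at hv'; norm_num at hv'
    · exact h
  set u := v + 1 with hu
  obtain ⟨r, hr, hr1, hr2⟩ := exists_large (64 * |C|)
    ((8 : ℝ) ^ p * (4 * v + 2 * u + 9) * 2 ^ ((i : ℝ) + 2))
    (((1 / 2 : ℝ) ^ (i + 4)) ^ p) ((1 / 2) ^ i) (by positivity) (by positivity) (i + 5)
  set L := v * r with hL
  set b := u * r with hb
  have hiL : i + 5 ≤ L := by
    calc i + 5 ≤ r := hr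
      _ = 1 * r := (one_mul r).symm
      _ ≤ v * r := Nat.mul_le_mul_right r hv1
  have hb1 : 1 ≤ b := by
    calc 1 ≤ r := by omega
      _ = 1 * r := (one_mul r).symm
      _ ≤ u * r := Nat.mul_le_mul_right r (by omega)
  have hcond : 64 * C * 2 ^ (L - (i + 2)) * (1 / 2) ^ b ≤ ((1 / 2 : ℝ) ^ (i + 4)) ^ p := by
    refine le_trans ?_ hr1
    have h1 : (2 : ℝ) ^ (L - (i + 2)) ≤ 2 ^ L := pow_le_pow_right₀ (by norm_num) (by omega)
    have h2 : (2 : ℝ) ^ L * (1 / 2) ^ b = (1 / 2) ^ r := by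
      have : b = L + r := by rw [hb, hL, hu]; ring
      rw [this, pow_add, ← mul_assoc, pow_mul_half, one_mul]
    calc 64 * C * 2 ^ (L - (i + 2)) * (1 / 2) ^ b ≤ 64 * |C| * 2 ^ L * (1 / 2) ^ b := by
          gcongr
          exact le_abs_self C
      _ = 64 * |C| * (2 ^ L * (1 / 2) ^ b) := by ring
      _ = _ := by rw [h2]
  obtain ⟨w, hw0, hw1, hgood⟩ := regime_one_block (p := p) (i := i) (L := L) (b := b) (C := C)
    hiL hb1 hcond
  refine ⟨L, hiL, _, by positivity, e_small _ _ _, w, hw0, hw1,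
    2 * L + 8 + b * 2 ^ (L + 2 * b) + b + 2 * L, ?_, ?_, hgood⟩
  · apply le_of_eq
    rw [pow_add _ (2 * L + 8 + b * 2 ^ (L + 2 * b) + b) (2 * L), mul_comm 2 L, pow_mul]
  · refine le_trans ?_ hr2
    have h := cap_estimate (p := p) (u := u) (v := v) (r := r) (i := i)
      (I := 2 ^ (L + 2 * b)) (c := v + 2 * u) Nat.one_le_two_pow
      (by
        push_cast
        rw [two_pow]
        apply Real.rpow_le_rpow_of_exponent_le (by norm_num)
        rw [hL, hb]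
        push_cast
        have : (0 : ℝ) ≤ i := Nat.cast_nonneg _
        linarith)
      (by
        rw [hu]
        push_cast
        linarith)
    exact h

theorem blockOK_small {p : ℝ} (hp1 : 1 < p) (hp2 : p ^ 2 + p < 3) (i : ℕ) (C : ℝ) :
    BlockOK p i C := by
  have hp3 : p < 2 := by nlinarith
  set d := 3 - p - p ^ 2 with hd
  have hd0 : 0 < d := by rw [hd]; linarith
  obtain ⟨v0, hv0⟩ := exists_nat_ge ((1 + 3 * (2 - p)) / d)
  set v := v0 + 3 with hvdef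
  have hv : 1 + 3 * (2 - p) ≤ d * v := by
    rw [div_le_iff₀ hd0] at hv0
    rw [hvdef]
    push_cast
    nlinarith
  have hv3 : (3 : ℝ) ≤ v := by rw [hvdef]; push_cast; linarith [(Nat.cast_nonneg v0 : (0 : ℝ) ≤ v0)]
  set u := ⌊(p + 1) * v - 2⌋₊ with hu
  have hu1 : (u : ℝ) ≤ (p + 1) * v - 2 := Nat.floor_le (by nlinarith)
  have hu2 : (p + 1) * v - 2 < u + 1 := Nat.lt_floor_add_one _
  have huv : v ≤ u := by
    have : (v : ℝ) ≤ u := by nlinarith
    exact_mod_cast this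
  have hbig : 1 ≤ (2 - p) * u - (2 * p - 1) * v := by
    have h1 : (2 - p) * ((p + 1) * v - 3) ≤ (2 - p) * u := by
      apply mul_le_mul_of_nonneg_left _ (by linarith)
      linarith
    rw [hd] at hv
    nlinarith
  obtain ⟨r, hr, hr1, hr2⟩ := exists_large (160 * |C|)
    ((8 : ℝ) ^ p * (4 * v + 2 * u + 9) * 2 ^ ((i : ℝ) + 2))
    1 ((1 / 2) ^ i) (by norm_num) (by positivity) (i + 5)
  set L := v * r with hL
  set b := u * r with hb
  have hv1 : 1 ≤ v := by omega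
  have hiL : i + 5 ≤ L := by
    calc i + 5 ≤ r := hr
      _ = 1 * r := (one_mul r).symm
      _ ≤ v * r := Nat.mul_le_mul_right r hv1
  have hLb : L ≤ b := Nat.mul_le_mul_right r huv
  set I := 2 ^ (b + i + 2 - L) with hI
  have hIeq : 2 ^ b ≤ 2 ^ (L - (i + 2)) * I := by
    rw [hI, ← pow_add]
    apply Nat.pow_le_pow_right (by norm_num)
    omega
  have hcond : 160 * C * ((1 / 2 : ℝ) ^ b) ^ 2 * (1 / 2) ^ L ≤
      ((1 / 2 : ℝ) ^ b * ((1 / 2) ^ L) ^ 2) ^ p := by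
    have h1 : ((1 / 2 : ℝ) ^ b * ((1 / 2) ^ L) ^ 2) ^ p = 2 ^ (-(p * (b + 2 * L))) := by
      rw [half_pow, half_pow, ← Real.rpow_natCast, ← Real.rpow_mul (by norm_num),
        ← Real.rpow_add (by norm_num), ← Real.rpow_mul (by norm_num)]
      congr 1
      push_cast
      ring
    have h2 : ((1 / 2 : ℝ) ^ b) ^ 2 * (1 / 2) ^ L = 2 ^ (-(2 * b + L : ℝ)) := by
      rw [half_pow, half_pow, ← Real.rpow_natCast, ← Real.rpow_mul (by norm_num),
        ← Real.rpow_add (by norm_num)]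
      congr 1
      push_cast
      ring
    rw [h1, mul_assoc, h2]
    have h3 : (2 : ℝ) ^ (-(2 * b + L : ℝ)) ≤ 2 ^ (-(r : ℝ)) * 2 ^ (-(p * (b + 2 * L))) := by
      rw [← Real.rpow_add (by norm_num)]
      apply Real.rpow_le_rpow_of_exponent_le (by norm_num)
      rw [hb, hL]
      push_cast
      have hr0 : (0 : ℝ) ≤ r := Nat.cast_nonneg _
      nlinarith [mul_le_mul_of_nonneg_right hbig hr0]
    calc 160 * C * 2 ^ (-(2 * b + L : ℝ)) ≤ 160 * |C| * 2 ^ (-(2 * b + L : ℝ)) := by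
          gcongr
          exact le_abs_self C
      _ ≤ 160 * |C| * (2 ^ (-(r : ℝ)) * 2 ^ (-(p * (b + 2 * L)))) := by gcongr
      _ = (160 * |C| * (1 / 2) ^ r) * 2 ^ (-(p * (b + 2 * L))) := by rw [half_pow r]; ring
      _ ≤ 1 * 2 ^ (-(p * (b + 2 * L))) := by gcongr
      _ = _ := one_mul _
  obtain ⟨w, hw0, hw1, hgood⟩ := regime_two_block (p := p) (i := i) (L := L) (b := b) (I := I)
    (C := C) hiL (by omega) hIeq hcond
  refine ⟨L, hiL, _, by positivity, e_small _ _ _, w, hw0, hw1,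
    2 * L + 8 + b * I + b + 2 * L, ?_, ?_, hgood⟩
  · apply le_of_eq
    rw [pow_add _ (2 * L + 8 + b * I + b) (2 * L), mul_comm 2 L, pow_mul]
  · refine le_trans ?_ hr2
    have h := cap_estimate (p := p) (u := u) (v := v) (r := r) (i := i)
      (I := I) (c := (u : ℝ) - v) Nat.one_le_two_pow
      (by
        rw [hI]
        push_cast
        rw [two_pow]
        apply Real.rpow_le_rpow_of_exponent_le (by norm_num)
        rw [Nat.cast_sub (by omega), hL, hb]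
        push_cast
        linarith)
      (by linarith)
    exact h

end Pool.Agent.Helper61.Lacunary
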