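import Mathlib
import Pool.Agent.Helper61.Lacunary.Params

/-!
# Assembly of the blocks
-/

open MeasureTheory Set
open scoped ENNReal

namespace Pool.Agent.Helper61.Lacunary

theorem main_construction {p : ℝ} (hp : 0 < p) (hOK : ∀ i C, BlockOK p i C) :
    ∃ Ω : Set Plane, IsOpen Ω ∧ Convex ℝ Ω ∧ Bornology.IsBounded Ω ∧ (0 : Plane) ∈ Ω ∧
      ConditionG Ω p ∧ ¬ LpBounded Ω p := by
  choose L hL e he he' w hw hw' κ hκ hκ' hgood using fun i : ℕ => hOK i ((i : ℝ) + 1)
  set B : BlockData := ⟨L, e, w, hL, he, he', hw, hw'⟩ with hB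
  refine ⟨B.region, B.region_isOpen, B.region_convex, B.region_isBounded, B.region_zero_mem,
    B.conditionG hp κ hκ hκ', ?_⟩
  rintro ⟨C₀, hC₀⟩
  set c := max C₀ 0 with hc
  have hc0 : 0 ≤ c := le_max_right _ _
  obtain ⟨i, hi⟩ := exists_nat_gt (c ^ p)
  obtain ⟨S, hS, b, hb, hSb, Q, hQ, lam, hlam, hineq, hmain⟩ := hgood i
  have hx := hmain B.Phi (fun j t hj1 hj2 ht => B.Phi_eq_node (i := i) hj1 hj2 ht)
    (fun t ht => B.Phi_le_two ht)
  have hmem : MemLp (S.indicator (1 : Plane → ℝ)) (ENNReal.ofReal p) volume :=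
    memLp_indicator_const _ hS 1 (Or.inr (hSb.trans_lt ENNReal.ofReal_lt_top).ne)
  have hbound := hC₀ _ hmem
  have hlow : ENNReal.ofReal (lam ^ p) * volume Q ≤
      ∫⁻ x, lacMax B.region (S.indicator 1) x ^ p := by
    calc ENNReal.ofReal (lam ^ p) * volume Q = ∫⁻ x, Q.indicator
          (fun _ => ENNReal.ofReal (lam ^ p)) x := by
          rw [lintegral_indicator hQ]
          simp
      _ ≤ _ := by
          apply lintegral_mono
          intro x
          by_cases hxQ : x ∈ Q
          · obtain ⟨k, V, hV, hV2, hV3⟩ := hx x hxQ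
            rw [indicator_of_mem hxQ, ← ENNReal.ofReal_rpow_of_pos hlam]
            exact ENNReal.rpow_le_rpow (hV2.trans (B.le_lacMax hS hV x k hV3)) hp.le
          · rw [indicator_of_notMem hxQ]
            exact zero_le
  have hnorm : eLpNorm (S.indicator (1 : Plane → ℝ)) (ENNReal.ofReal p) volume =
      volume S ^ (1 / p) := by
    have h := eLpNorm_indicator_const (μ := (volume : Measure Plane)) (c := (1 : ℝ))
      (p := ENNReal.ofReal p) hS (by simpa using hp) ENNReal.ofReal_ne_top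
    rw [ENNReal.toReal_ofReal hp.le] at h
    have h1 : ‖(1 : ℝ)‖ₑ = 1 := by simp
    rw [h1, one_mul] at h
    exact h
  rw [hnorm] at hbound
  have hup : ∫⁻ x, lacMax B.region (S.indicator 1) x ^ p ≤
      ENNReal.ofReal (c ^ p) * ENNReal.ofReal b := by
    have h1 := ENNReal.rpow_le_rpow hbound hp.le
    rw [← ENNReal.rpow_mul, one_div, inv_mul_cancel₀ hp.ne', ENNReal.rpow_one,
      ENNReal.mul_rpow_of_nonneg _ _ hp.le, ← ENNReal.rpow_mul, inv_mul_cancel₀ hp.ne',
      ENNReal.rpow_one] at h1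
    refine h1.trans ?_
    have h2 : ENNReal.ofReal C₀ ^ p ≤ ENNReal.ofReal (c ^ p) := by
      rw [← ENNReal.ofReal_rpow_of_nonneg hc0 hp.le]
      exact ENNReal.rpow_le_rpow (ENNReal.ofReal_le_ofReal (le_max_left _ _)) hp.le
    exact mul_le_mul' h2 hSb
  have hfin := (hineq.trans hlow).trans hup
  rw [← ENNReal.ofReal_mul (by positivity), ENNReal.ofReal_le_ofReal_iff (by positivity)] at hfin
  have := le_of_mul_le_mul_right hfin hb
  linarith

end Pool.Agent.Helper61.Lacunary
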